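import Pool.Agent.H48.OC.ECLB

/-!
# Module ECL1
-/

set_option autoImplicit false
set_option linter.unusedSectionVars false
open scoped Classical
open Finset

namespace Pool.Agent.H48.OC.ECL

open Pool.Agent.H69.OC Pool.Agent.H69.OC.DG

variable {V D : Type} [Fintype V] [Fintype D] {G : DG V D}

/-- the walk along the face between `l` and `r` -/
structure Wk (G : DG V D) (A : Finset D) (f : D → ℕ) (S : Finset V) (l r : D) (n : ℕ)
    (o : ℕ → D) : Prop where
  o0 : o 0 = G.inv r
  ol : o (n + 1) = l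
  inA : ∀ i ≤ n + 1, o i ∈ A ∧ f (o i) = f l
  nxt : ∀ i ≤ n, G.tgt (o i) = G.src (o (i + 1)) ∧ G.tgt (o i) ∈ S
  inj : ∀ i ≤ n, ∀ j ≤ n, G.tgt (o i) = G.tgt (o j) → i = j
  all : ∀ d ∈ A, G.src d ∈ S → f d = f l → ∃ i ≤ n, d = o (i + 1)

theorem two_labels (a y z w : ℕ) (hyw : y ≠ w)
    (h : ∀ k : ℕ, (if a = k then 1 else 0) + (if y = k then 1 else 0) =
      (if z = k then 1 else 0) + (if w = k then (1 : ℕ) else 0)) : y = z ∧ w = a := by
  have h1 := h y
  have h2 := h a
  simp only [if_true] at h1 h2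
  split_ifs at h1 h2 <;> omega

namespace Cx

variable {A : Finset D} {e : D} {f : D → ℕ} {S : Finset V} {p l r : D}

theorem walk (hw : T_WALK) (h : Cx G A e f S p l r) (c2 : f (G.inv r) = f l) (hpl : f p ≠ f l)
    (hlr : f l ≠ f r) : ∃ n o, Wk G A f S l r n o := by
  obtain ⟨n, o, h1, h2, h3, h4, -, h6, h7⟩ := hw V D G A f S h.clA (fun v _ => h.bal v) (by
    intro v _
    have h1 : (sel A fun d => G.src d = v) ⊆ sel univ fun d => G.src d = v := by
      intro d hd
      rw [mem_sel] at hd ⊢
      exact ⟨mem_univ _, hd.2⟩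
    have h2 := card_le_card h1
    rwa [h.cub v] at h2) (fun d hd _ => h.F2 hd) (G.inv r) (h.clA _ h.rA) h.hr.2
    (by rw [tgt_inv]; exact h.hr.1) l (by
      intro d hd hd1 hd2 hd3
      rw [c2] at hd3
      rcases (h.cutA d).1 (mem_cut.2 ⟨hd, hd1, hd2⟩) with h4 | h4 | h4
      · rw [h4] at hd3; exact absurd hd3 hpl
      · exact h4
      · rw [h4] at hd3; exact absurd hd3.symm hlr) (by
      intro R hRA hR hR1 hR2
      obtain ⟨d, hd⟩ := hR
      have h3 := h.orb R hRA ⟨d, hd⟩ hR2 d hd l h.lA (by rw [(hR1 d hd).2.2, c2])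
      exact h.hl.2 (hR1 l h3).2.1)
  refine ⟨n, o, ⟨h1, h2, ?_, h4, h6, ?_⟩⟩
  · intro i hi
    rw [← c2]
    exact h3 i hi
  · intro d hd hd1 hd2
    exact h7 d hd hd1 (by rw [c2]; exact hd2)

end Cx

/-- what is used at a vertex of the walk -/
structure Leg (G : DG V D) (A : Finset D) (f : D → ℕ) (o : ℕ → D) (i : ℕ) (x : D) : Prop where
  src : G.src x = G.src (o i)
  mem : x ∈ A
  star : ∀ d, G.src d = G.src (o i) → d = o i ∨ d = G.inv (o (i - 1)) ∨ d = x
  f1 : f x = f (G.inv (o i))
  f2 : f (G.inv x) = f (G.inv (o (i - 1)))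

/-- `cut A T = {at most one dart}` contradicts `C3` -/
theorem c3_contra (h3 : G.C3) {T : Finset V} (h1 : T.Nonempty) (h2 : T ≠ univ) {x : D}
    (h : ∀ d ∈ G.cut univ T, d = x) : False := by
  have h4 : (G.cut univ T).card ≤ 1 := by
    rw [card_le_one]
    intro d hd d' hd'
    rw [h d hd, h d' hd']
  have := h3 T h1 h2
  omega

namespace Cx

variable {A : Finset D} {e : D} {f : D → ℕ} {S : Finset V} {p l r : D}

theorem ecl1_main (hw : T_WALK) (h : Cx G A e f S p l r) (c1 : f (G.inv l) = f p)
    (c2 : f (G.inv r) = f l) (c3 : f (G.inv p) = f r) (hpl : f p ≠ f l)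
    (hlr : f l ≠ f r)
    (H : ∀ Q ⊆ S, G.Conn univ Q → G.src l ∈ Q → G.src r ∈ Q →
      ¬ G.Reach A (S \ Q) (G.src e) (G.src p)) :
    ∃ c, c ≠ e ∧ G.src c = G.src e ∧ f l = f c := by
  by_contra hno
  push Not at hno
  obtain ⟨n, o, wk⟩ := h.walk hw c2 hpl hlr
  obtain ⟨de1, de2, de3, de4, de5, de6⟩ := h.dist
  have oA : ∀ i ≤ n + 1, o i ∈ A := fun i hi => (wk.inA i hi).1
  have oO : ∀ i ≤ n + 1, f (o i) = f l := fun i hi => (wk.inA i hi).2
  have nO : ∀ i ≤ n + 1, f (G.inv (o i)) ≠ f l := by
    intro i hi h1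
    exact h.F2 (oA i hi) ((oO i hi).trans h1.symm)
  have pre : ∀ i, 1 ≤ i → i ≤ n + 1 → G.tgt (o (i - 1)) = G.src (o i) := by
    intro i h1 h2
    have := (wk.nxt (i - 1) (by omega)).1
    rwa [Nat.sub_add_cancel h1] at this
  have vS : ∀ i, 1 ≤ i → i ≤ n + 1 → G.src (o i) ∈ S := by
    intro i h1 h2
    have h3 := (wk.nxt (i - 1) (by omega)).2
    rwa [pre i h1 h2] at h3
  have ve : ∀ i, 1 ≤ i → i ≤ n + 1 → G.src (o i) ≠ G.src e := by
    intro i h1 h2 h3
    exact hno (o i) ((h.memA _).1 (oA i h2)).1 h3 (oO i h2).symm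
  have vt : ∀ i, 1 ≤ i → i ≤ n + 1 → G.src (o i) ≠ G.tgt e := by
    intro i h1 h2 h3
    exact h.te (h3 ▸ vS i h1 h2)
  have vinj : ∀ i j, 1 ≤ i → i ≤ n + 1 → 1 ≤ j → j ≤ n + 1 → G.src (o i) = G.src (o j) →
      i = j := by
    intro i j h1 h2 h3 h4 h5
    rw [← pre i h1 h2, ← pre j h3 h4] at h5
    have := wk.inj (i - 1) (by omega) (j - 1) (by omega) h5
    omega
  have tl : G.tgt (o (n + 1)) ∉ S := by rw [wk.ol]; exact h.hl.2
  have s0 : G.src (o 0) ∉ S := by rw [wk.o0]; exact h.hr.2
  -- darts at the vertices of the walk belong to `A`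
  have dA : ∀ i, 1 ≤ i → i ≤ n + 1 → ∀ d, G.src d = G.src (o i) → d ∈ A := by
    intro i h1 h2 d hd
    rw [h.memA]
    constructor
    · rintro rfl
      exact ve i h1 h2 hd.symm
    · rintro rfl
      exact vt i h1 h2 hd.symm
  -- the legs
  have legs : ∀ i, 1 ≤ i → i ≤ n + 1 → ∃ x, Leg G A f o i x := by
    intro i h1 h2
    have hne : o i ≠ G.inv (o (i - 1)) := by
      intro h3
      apply nO (i - 1) (by omega)
      rw [← h3]
      exact oO i h2
    obtain ⟨x, hx1, hx2, hx3⟩ := third h.cub (v := G.src (o i)) hne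
    have hs : G.src (G.inv (o (i - 1))) = G.src (o i) := pre i h1 h2
    have star : ∀ d, G.src d = G.src (o i) → d = o i ∨ d = G.inv (o (i - 1)) ∨ d = x :=
      fun d hd => three h.cub rfl hs hx1 hne (Ne.symm hx2) (Ne.symm hx3) hd
    have hxA : x ∈ A := dA i h1 h2 x hx1
    have hset : ∀ q : D → Prop, (sel A fun d => G.src d = G.src (o i) ∧ q d) =
        sel {o i, G.inv (o (i - 1)), x} q := by
      intro q
      apply sel_congr
      intro d
      simp only [mem_insert, mem_singleton]
      constructor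
      · rintro ⟨-, h4, h5⟩
        exact ⟨star d h4, h5⟩
      · rintro ⟨h4, h5⟩
        have h6 : G.src d = G.src (o i) := by
          rcases h4 with rfl | rfl | rfl
          · rfl
          · exact hs
          · exact hx1
        exact ⟨dA i h1 h2 d h6, h6, h5⟩
    have hbal : ∀ k : ℕ, (if f (G.inv (o (i - 1))) = k then 1 else 0) +
        (if f x = k then 1 else 0) = (if f (G.inv (o i)) = k then 1 else 0) +
        (if f (G.inv x) = k then (1 : ℕ) else 0) := by
      intro k
      have h4 := h.bal (G.src (o i)) k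
      rw [hset, hset, card_sel_three hne (Ne.symm hx2) (Ne.symm hx3),
        card_sel_three hne (Ne.symm hx2) (Ne.symm hx3), G.inv_inv, oO i h2,
        oO (i - 1) (by omega)] at h4
      omega
    obtain ⟨e1, e2⟩ := two_labels _ _ _ _ (h.F2 hxA) hbal
    exact ⟨x, ⟨hx1, hxA, star, e1, e2⟩⟩
  have hDne : Nonempty D := ⟨e⟩
  choose! hh leg using legs
  -- the faces `f (inv (o i))` are distinct
  have ninj' : ∀ i j, i < j → j ≤ n + 1 → f (G.inv (o i)) = f (G.inv (o j)) → False := by
    intro i j hij hj hf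
    have h1 : o i ≠ o j := by
      intro h2
      rcases Nat.eq_zero_or_pos i with rfl | hi
      · rw [h2] at s0
        exact s0 (vS j hij hj)
      · have := vinj i j hi (by omega) (by omega) hj (by rw [h2])
        omega
    have h2 : o i ≠ G.inv (o j) := by
      intro h2
      apply nO j hj
      rw [← h2]
      exact oO i (by omega)
    obtain ⟨u, hu, hi, hj'⟩ := h.dual2 (oA i (by omega)) (oA j hj) h1 h2
      ((oO i (by omega)).trans (oO j hj).symm) hf
    rcases hu with rfl | rfl
    · rcases hj' with h3 | h3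
      · exact ve j (by omega) hj h3
      · rcases Nat.lt_or_ge n j with h4 | h4
        · have h5 : j = n + 1 := by omega
          rw [h5] at h3
          rw [h3] at tl
          exact tl h.eS
        · rw [(wk.nxt j h4).1] at h3
          exact ve (j + 1) (by omega) (by omega) h3
    · have h3 : G.tgt (o j) = G.tgt e := by
        rcases hj' with h3 | h3
        · exact absurd h3 (vt j (by omega) hj)
        · exact h3
      have h4 : j = n + 1 := by
        by_contra h4
        have := (wk.nxt j (by omega)).2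
        rw [h3] at this
        exact h.te this
      have h5 : G.src (o i) = G.tgt e := by
        rcases hi with h5 | h5
        · exact h5
        · have := (wk.nxt i (by omega)).2
          rw [h5] at this
          exact absurd this h.te
      have h6 : i = 0 := by
        by_contra h6
        exact vt i (by omega) (by omega) h5
      rw [h4, wk.ol] at h3
      rw [h6, wk.o0, src_inv] at h5
      -- `tgt e = tgt l = tgt r`
      have st := fun d (hd : G.src d = G.tgt e) => three h.cub (d1 := G.inv e) (d2 := G.inv l)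
        (d3 := G.inv r) (v := G.tgt e) rfl h3 h5 (fun h7 => de2 (inv_inj h7))
        (fun h7 => de3 (inv_inj h7)) (fun h7 => de6 (inv_inj h7)) hd
      have memT : ∀ v, v ∈ Sᶜ \ {G.tgt e} ↔ v ∉ S ∧ v ≠ G.tgt e := by
        intro v
        simp only [mem_sdiff, mem_compl, mem_singleton]
      refine c3_contra (G := G) h.c3 (T := Sᶜ \ {G.tgt e}) (x := G.inv p) ?_ ?_ ?_
      · rw [sdiff_nonempty]
        intro h7
        have := card_le_card h7
        rw [card_singleton] at this
        have := h.co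
        omega
      · intro h7
        have : G.tgt e ∈ Sᶜ \ {G.tgt e} := by rw [h7]; exact mem_univ _
        exact ((memT _).1 this).2 rfl
      · intro d hd
        rw [mem_cut, memT, memT] at hd
        obtain ⟨-, ⟨h7, h8⟩, h9⟩ := hd
        by_cases h10 : G.tgt d = G.tgt e
        · exfalso
          rcases st (G.inv d) h10 with h11 | h11 | h11
          · exact h7 (inv_inj h11 ▸ h.eS)
          · exact h7 (inv_inj h11 ▸ h.hl.1)
          · exact h7 (inv_inj h11 ▸ h.hr.1)
        · have h11 : G.tgt d ∈ S := by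
            by_contra h11
            exact h9 ⟨h11, h10⟩
          have h12 := (h.cutS (G.inv d)).1 (mem_cut.2 ⟨mem_univ _, h11, by
            rw [tgt_inv]; exact h7⟩)
          rcases h12 with h12 | h12 | h12 | h12
          · exact absurd (by rw [← h12, tgt_inv]) h8
          · rw [← h12, G.inv_inv]
          · exact absurd (by rw [← h3, ← h12, tgt_inv]) h8
          · exact absurd (by rw [← h5, ← h12, tgt_inv]) h8
  have ninj : ∀ i j, i ≤ n + 1 → j ≤ n + 1 → f (G.inv (o i)) = f (G.inv (o j)) → i = j := by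
    intro i j hi hj hf
    rcases lt_trichotomy i j with h1 | h1 | h1
    · exact (ninj' i j h1 hj hf).elim
    · exact h1
    · exact (ninj' j i h1 hi hf.symm).elim
  have n0 : f (G.inv (o 0)) = f r := by rw [wk.o0, G.inv_inv]
  have nl : f (G.inv (o (n + 1))) = f p := by rw [wk.ol, c1]
  -- `src p` is not on the walk
  have pQ : ∀ i, 1 ≤ i → i ≤ n + 1 → G.src p ≠ G.src (o i) := by
    intro i h1 h2 h3
    have hp : p = hh i := by
      rcases (leg i h1 h2).star p h3 with h4 | h4 | h4
      · exact absurd (by rw [h4]; exact oO i h2) hpl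
      · exfalso
        rcases Nat.lt_or_ge (i - 1) 1 with h5 | h5
        · have h6 : i - 1 = 0 := by omega
          rw [h6, wk.o0, G.inv_inv] at h4
          exact de5 h4
        · have h6 := h.hp.2
          rw [h4, tgt_inv] at h6
          exact h6 (vS (i - 1) h5 (by omega))
      · exact h4
    have h4 := (leg i h1 h2).f1
    have h5 := (leg i h1 h2).f2
    rw [← hp] at h4 h5
    have h6 : i - 1 = 0 := ninj _ _ (by omega) (by omega) (by rw [← h5, n0, c3])
    have h7 : i = n + 1 := ninj _ _ (by omega) (by omega) (by rw [← h4, nl])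
    have h8 : n = 0 := by omega
    subst h8
    have h9 : i = 1 := by omega
    subst h9
    have h10 : G.src l = G.src p := by rw [h3]; exact congrArg _ wk.ol.symm
    have h11 : G.src r = G.src p := by
      rw [h3, ← (wk.nxt 0 (by omega)).1, wk.o0, tgt_inv]
    have st := fun d (hd : G.src d = G.src p) => three h.cub (d1 := p) (d2 := l) (d3 := r) rfl
      h10 h11 de4 de5 de6 hd
    have memT : ∀ v, v ∈ S \ {G.src p} ↔ v ∈ S ∧ v ≠ G.src p := by
      intro v
      simp only [mem_sdiff, mem_singleton]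
    refine c3_contra (G := G) h.c3 (T := S \ {G.src p}) (x := e) ?_ ?_ ?_
    · rw [sdiff_nonempty]
      intro h12
      have := card_le_card h12
      rw [card_singleton] at this
      have := h.big
      omega
    · intro h12
      have : G.src p ∈ S \ {G.src p} := by rw [h12]; exact mem_univ _
      exact ((memT _).1 this).2 rfl
    · intro d hd
      rw [mem_cut, memT, memT] at hd
      obtain ⟨-, ⟨h12, h13⟩, h14⟩ := hd
      by_cases h15 : G.tgt d ∈ S
      · exfalso
        have h16 : G.tgt d = G.src p := by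
          by_contra h16
          exact h14 ⟨h15, h16⟩
        rcases st (G.inv d) h16 with h17 | h17 | h17
        · exact h.hp.2 (by rw [← h17, tgt_inv]; exact h12)
        · exact h.hl.2 (by rw [← h17, tgt_inv]; exact h12)
        · exact h.hr.2 (by rw [← h17, tgt_inv]; exact h12)
      · rcases (h.cutS d).1 (mem_cut.2 ⟨mem_univ _, h12, h15⟩) with h16 | h16 | h16 | h16
        · exact h16
        · exact absurd (by rw [h16]) h13
        · exact absurd (by rw [h16, h10]) h13
        · exact absurd (by rw [h16, h11]) h13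
  -- the vertices of the walk
  let Q : Finset V := (Icc 1 (n + 1)).image fun i => G.src (o i)
  have memQ : ∀ v, v ∈ Q ↔ ∃ i, 1 ≤ i ∧ i ≤ n + 1 ∧ v = G.src (o i) := by
    intro v
    simp only [Q, mem_image, mem_Icc]
    constructor
    · rintro ⟨i, h1, h2⟩
      exact ⟨i, h1.1, h1.2, h2.symm⟩
    · rintro ⟨i, h1, h2, h3⟩
      exact ⟨i, ⟨h1, h2⟩, h3.symm⟩
  have QS : Q ⊆ S := by
    intro v hv
    obtain ⟨i, h1, h2, rfl⟩ := (memQ v).1 hv
    exact vS i h1 h2
  have Qc : G.Conn univ Q := by
    refine conn_of_reach (a := G.src (o 1)) ?_ cl_univ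
    intro b hb
    obtain ⟨i, h1, h2, rfl⟩ := (memQ b).1 hb
    clear hb
    induction i, h1 using Nat.le_induction with
    | base => exact Reach.refl ((memQ _).2 ⟨1, le_refl 1, by omega, rfl⟩)
    | succ i hi ih =>
      have h3 := (wk.nxt i (by omega)).1
      rw [← h3]
      exact (ih (by omega)).tail (mem_univ _) ((memQ _).2 ⟨i + 1, by omega, h2, h3⟩)
  have lQ : G.src l ∈ Q := (memQ _).2 ⟨n + 1, by omega, le_refl _, by rw [wk.ol]⟩
  have rQ : G.src r ∈ Q := (memQ _).2 ⟨1, le_refl _, by omega, by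
    rw [← (wk.nxt 0 (by omega)).1, wk.o0, tgt_inv]⟩
  have eQ : G.src e ∉ Q := by
    intro h1
    obtain ⟨i, h2, h3, h4⟩ := (memQ _).1 h1
    exact ve i h2 h3 h4.symm
  -- legs end in `S \ Q`
  have legS : ∀ i, 1 ≤ i → i ≤ n + 1 → G.tgt (hh i) ∈ S ∧ G.tgt (hh i) ∉ Q := by
    intro i h1 h2
    have lg := leg i h1 h2
    constructor
    · by_contra h3
      have h4 := (h.cutA (hh i)).1 (mem_cut.2 ⟨lg.mem, by rw [lg.src]; exact vS i h1 h2, h3⟩)
      rcases h4 with h4 | h4 | h4
      · exact pQ i h1 h2 (by rw [← h4]; exact lg.src)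
      · have h5 : i = n + 1 := vinj i (n + 1) h1 h2 (by omega) (le_refl _) (by
          rw [← lg.src, h4, wk.ol])
        have h6 := lg.f1
        rw [h4, h5, wk.ol] at h6
        exact h.F2 h.lA h6
      · have h5 : i = 1 := vinj i 1 h1 h2 (by omega) (by omega) (by
          rw [← lg.src, h4, ← (wk.nxt 0 (by omega)).1, wk.o0, tgt_inv])
        have h6 := lg.f2
        rw [h4, h5, c2] at h6
        exact nO 0 (by omega) h6.symm
    · intro h3
      obtain ⟨j, h4, h5, h6⟩ := (memQ _).1 h3
      rcases (leg j h4 h5).star (G.inv (hh i)) h6 with h7 | h7 | h7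
      · have h8 := lg.f2
        rw [h7, oO j h5] at h8
        exact nO (i - 1) (by omega) h8.symm
      · have h8 := lg.f1
        rw [inv_inj h7, oO (j - 1) (by omega)] at h8
        exact nO i h2 h8.symm
      · have h8 := (leg j h4 h5).f1
        have h9 := (leg j h4 h5).f2
        rw [← h7] at h8 h9
        rw [G.inv_inv] at h9
        have h10 := ninj _ _ (by omega) (by omega) (lg.f2.symm.trans h8)
        have h11 := ninj _ _ (by omega) (by omega) (lg.f1.symm.trans h9)
        omega
  refine H Q QS Qc lQ rQ ?_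
  by_contra hpZ
  let Z := G.comp A (S \ Q) (G.src e)
  have eZ : G.src e ∈ Z := mem_comp.2 (Reach.refl (mem_sdiff.2 ⟨h.eS, eQ⟩))
  have Zs : ∀ v ∈ Z, v ∈ S ∧ v ∉ Q := fun v hv => mem_sdiff.1 (comp_sub hv)
  have pZ : G.src p ∉ Z := fun h1 => hpZ (mem_comp.1 h1)
  have sep : ∀ d ∈ A, G.src d ∈ Z → G.tgt d ∉ Z → ∃ i, 1 ≤ i ∧ i ≤ n + 1 ∧ G.inv d = hh i := by
    intro d hd h1 h2
    have h3 : G.tgt d ∈ S := by
      by_contra h3
      rcases (h.cutA d).1 (mem_cut.2 ⟨hd, (Zs _ h1).1, h3⟩) with h4 | h4 | h4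
      · rw [h4] at h1; exact pZ h1
      · rw [h4] at h1; exact (Zs _ h1).2 lQ
      · rw [h4] at h1; exact (Zs _ h1).2 rQ
    have h4 : G.tgt d ∈ Q := by
      by_contra h4
      exact h2 (comp_closed hd h1 (mem_sdiff.2 ⟨h3, h4⟩))
    obtain ⟨i, h5, h6, h7⟩ := (memQ _).1 h4
    refine ⟨i, h5, h6, ?_⟩
    rcases (leg i h5 h6).star (G.inv d) h7 with h8 | h8 | h8
    · exfalso
      rcases Nat.lt_or_ge n i with h9 | h9
      · have h10 : i = n + 1 := by omega
        rw [h10] at h8
        rw [← h8, tgt_inv] at tl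
        exact tl (Zs _ h1).1
      · have h10 := (wk.nxt i h9).1
        rw [← h8, tgt_inv] at h10
        exact (Zs _ h1).2 ((memQ _).2 ⟨i + 1, by omega, by omega, h10⟩)
    · exfalso
      rcases Nat.lt_or_ge (i - 1) 1 with h9 | h9
      · have h10 : i - 1 = 0 := by omega
        rw [h10] at h8
        rw [← inv_inj h8] at s0
        exact s0 (Zs _ h1).1
      · rw [inv_inj h8] at h1
        exact (Zs _ h1).2 ((memQ _).2 ⟨i - 1, h9, by omega, rfl⟩)
    · exact h8
  have nosep : ∀ i, 1 ≤ i → i ≤ n + 1 → G.tgt (hh i) ∉ Z := by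
    intro i hi
    induction i, hi using Nat.le_induction with
    | base =>
      intro h2 h3
      have lg := leg 1 (le_refl _) h2
      have hX : (sel A fun d => ¬ (G.src d ∈ Z ↔ G.tgt d ∈ Z) ∧ f d = f (G.inv (o 0))) =
          {G.inv (hh 1)} := by
        ext d
        rw [mem_sel, mem_singleton]
        constructor
        · rintro ⟨hd, h4, h5⟩
          by_cases h6 : G.src d ∈ Z
          · have h7 : G.tgt d ∉ Z := fun h8 => h4 ⟨fun _ => h8, fun _ => h6⟩
            obtain ⟨j, h8, h9, h10⟩ := sep d hd h6 h7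
            have h11 := (leg j h8 h9).f2
            rw [← h10, G.inv_inv, h5] at h11
            have h12 := ninj _ _ (by omega) (by omega) h11
            have h13 : j = 1 := by omega
            rw [← h13, ← h10, G.inv_inv]
          · have h7 : G.tgt d ∈ Z := by
              by_contra h8
              exact h4 ⟨fun h9 => absurd h9 h6, fun h9 => absurd h9 h8⟩
            obtain ⟨j, h8, h9, h10⟩ := sep (G.inv d) (h.clA _ hd) h7 (by rw [tgt_inv]; exact h6)
            rw [G.inv_inv] at h10
            have h11 := (leg j h8 h9).f1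
            rw [← h10, h5] at h11
            have h12 := ninj _ _ (by omega) (by omega) h11
            omega
        · rintro rfl
          refine ⟨h.clA _ lg.mem, ?_, lg.f2⟩
          rw [src_inv, tgt_inv, lg.src]
          intro h4
          exact (Zs _ (h4.1 h3)).2 ((memQ _).2 ⟨1, le_refl _, h2, rfl⟩)
      have h4 := bal_even h.clA (W := Z) (fun v _ => h.bal v) (f (G.inv (o 0)))
      rw [hX, card_singleton] at h4
      exact absurd h4 (by decide)
    | succ i hi ih =>
      intro h2 h3
      have ih' := ih (by omega)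
      have lg := leg (i + 1) (by omega) h2
      have hX : (sel A fun d => ¬ (G.src d ∈ Z ↔ G.tgt d ∈ Z) ∧ f d = f (G.inv (o i))) =
          {G.inv (hh (i + 1))} := by
        ext d
        rw [mem_sel, mem_singleton]
        constructor
        · rintro ⟨hd, h4, h5⟩
          by_cases h6 : G.src d ∈ Z
          · have h7 : G.tgt d ∉ Z := fun h8 => h4 ⟨fun _ => h8, fun _ => h6⟩
            obtain ⟨j, h8, h9, h10⟩ := sep d hd h6 h7
            have h11 := (leg j h8 h9).f2
            rw [← h10, G.inv_inv, h5] at h11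
            have h12 := ninj _ _ (by omega) (by omega) h11
            have h13 : j = i + 1 := by omega
            rw [← h13, ← h10, G.inv_inv]
          · have h7 : G.tgt d ∈ Z := by
              by_contra h8
              exact h4 ⟨fun h9 => absurd h9 h6, fun h9 => absurd h9 h8⟩
            obtain ⟨j, h8, h9, h10⟩ := sep (G.inv d) (h.clA _ hd) h7 (by rw [tgt_inv]; exact h6)
            rw [G.inv_inv] at h10
            have h11 := (leg j h8 h9).f1
            rw [← h10, h5] at h11
            have h12 := ninj _ _ (by omega) (by omega) h11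
            rw [h10, ← h12] at h7
            exact absurd h7 ih'
        · rintro rfl
          refine ⟨h.clA _ lg.mem, ?_, lg.f2⟩
          rw [src_inv, tgt_inv, lg.src]
          intro h4
          exact (Zs _ (h4.1 h3)).2 ((memQ _).2 ⟨i + 1, by omega, h2, rfl⟩)
      have h4 := bal_even h.clA (W := Z) (fun v _ => h.bal v) (f (G.inv (o i)))
      rw [hX, card_singleton] at h4
      exact absurd h4 (by decide)
  have h1 : G.cut A Z = ∅ := by
    rw [eq_empty_iff_forall_notMem]
    intro d hd
    rw [mem_cut] at hd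
    obtain ⟨i, h2, h3, h4⟩ := sep d hd.1 hd.2.1 hd.2.2
    apply nosep i h2 h3
    rw [← h4, tgt_inv]
    exact hd.2.1
  have h2 := h.cut_le Z
  rw [h1, card_empty] at h2
  have h3 := h.c3 Z ⟨_, eZ⟩ (by
    intro h3
    have : G.tgt e ∈ Z := by rw [h3]; exact mem_univ _
    exact h.te (Zs _ this).1)
  omega

end Cx

theorem t_ecl1 (hw : T_WALK) : T_ECL1 := by
  intro V D _ _ G hCub h3 h4 e f hbal heul horb S p l r heS hcut hcard hbig hco H
  have h : Cx G (univ \ {e, G.inv e}) e f S p l r :=
    { cub := hCub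
      c3 := h3
      c4 := h4
      memA := fun d => by
        simp only [mem_sdiff, mem_univ, true_and, mem_insert, mem_singleton, not_or]
      clA := cl_sdiff_pair cl_univ e
      bal := hbal
      eul := heul
      orb := horb
      eS := heS
      cutS := hcut
      card4 := hcard
      big := hbig
      co := hco }
  obtain ⟨h1, h2, h5, h6 | h6⟩ := h.shift
  · obtain ⟨c, hc1, hc2, hc3⟩ := h.ecl1_main hw h6.1 h6.2.1 h6.2.2 h1 h5 H
    exact ⟨c, hc1, hc2, Or.inl ⟨hc3, h6.2.1.trans hc3⟩⟩
  · obtain ⟨c, hc1, hc2, hc3⟩ := h.swap.ecl1_main hw h6.1 h6.2.1 h6.2.2 h2 (Ne.symm h5)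
      (fun Q hQ hQc hr hl => H Q hQ hQc hl hr)
    exact ⟨c, hc1, hc2, Or.inr ⟨hc3, h6.2.1.trans hc3⟩⟩

end Pool.Agent.H48.OC.ECL
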