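import Pool.Agent.H48.OC.ECL1

/-!
# Module ECL2: splitting the face at the end of `e`
-/

set_option autoImplicit false
set_option linter.unusedSectionVars false
open scoped Classical
open Finset

namespace Pool.Agent.H48.OC.ECL

open Pool.Agent.H69.OC Pool.Agent.H69.OC.DG

variable {V D : Type} [Fintype V] [Fintype D] {G : DG V D}

/-- a label larger than all labels -/
theorem exists_fresh (f : D → ℕ) (k0 : ℕ) : ∃ N : ℕ, (∀ d, f d ≠ N) ∧ k0 ≠ N := by
  refine ⟨(∑ d, f d) + k0 + 1, ?_, by omega⟩
  intro d h
  have := Finset.single_le_sum (f := f) (fun i _ => Nat.zero_le _) (mem_univ d)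
  omega

/-- the sum of a coboundary along a path -/
theorem path_sum {W : Finset V} {x : D → ZMod 2} {o : ℕ → D} {j : ℕ} :
    ∀ m : ℕ, (∀ i ≤ m, x (o (j + i)) = ind W (G.src (o (j + i))) + ind W (G.tgt (o (j + i)))) →
    (∀ i < m, G.tgt (o (j + i)) = G.src (o (j + (i + 1)))) →
    ∑ i ∈ range (m + 1), x (o (j + i)) = ind W (G.src (o j)) + ind W (G.tgt (o (j + m))) := by
  intro m
  induction m with
  | zero =>
    intro h1 _
    rw [zero_add, sum_range_one]
    exact h1 0 (le_refl _)
  | succ m ih =>
    intro h1 h2
    rw [sum_range_succ, ih (fun i h3 => h1 i (by omega)) (fun i h3 => h2 i (by omega)),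
      h1 (m + 1) (le_refl _), h2 m (by omega)]
    have h4 : (2 : ZMod 2) = 0 := by decide
    linear_combination (ind W (G.src (o (j + (m + 1))))) * h4

/-- changing the label of some darts -/
theorem relabel {T : Type} (X : Finset T) (F Gf : T → ℕ) (τ : T → Prop) (O N : ℕ)
    (h1 : ∀ d ∈ X, τ d → F d = O ∧ Gf d = N) (h2 : ∀ d ∈ X, ¬ τ d → Gf d = F d) (k : ℕ) :
    (sel X fun d => Gf d = k).card + (if O = k then (sel X τ).card else 0) =
      (sel X fun d => F d = k).card + (if N = k then (sel X τ).card else 0) := by
  have e1 := card_sel_split X (fun d => Gf d = k) τ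
  have e2 := card_sel_split X (fun d => F d = k) τ
  have e3 : (sel X fun d => Gf d = k ∧ ¬ τ d) = sel X fun d => F d = k ∧ ¬ τ d := by
    ext d
    rw [mem_sel, mem_sel]
    constructor
    · rintro ⟨h3, h4, h5⟩
      exact ⟨h3, by rw [← h2 d h3 h5]; exact h4, h5⟩
    · rintro ⟨h3, h4, h5⟩
      exact ⟨h3, by rw [h2 d h3 h5]; exact h4, h5⟩
  have e4 : (sel X fun d => Gf d = k ∧ τ d).card = if N = k then (sel X τ).card else 0 := by
    split_ifs with h
    · congr 1
      ext d
      rw [mem_sel, mem_sel]
      constructor
      · exact fun h3 => ⟨h3.1, h3.2.2⟩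
      · exact fun h3 => ⟨h3.1, (h1 d h3.1 h3.2).2.trans h, h3.2⟩
    · rw [card_eq_zero, eq_empty_iff_forall_notMem]
      intro d hd
      rw [mem_sel] at hd
      exact h ((h1 d hd.1 hd.2.2).2.symm.trans hd.2.1)
  have e5 : (sel X fun d => F d = k ∧ τ d).card = if O = k then (sel X τ).card else 0 := by
    split_ifs with h
    · congr 1
      ext d
      rw [mem_sel, mem_sel]
      constructor
      · exact fun h3 => ⟨h3.1, h3.2.2⟩
      · exact fun h3 => ⟨h3.1, (h1 d h3.1 h3.2).1.trans h, h3.2⟩
    · rw [card_eq_zero, eq_empty_iff_forall_notMem]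
      intro d hd
      rw [mem_sel] at hd
      exact h ((h1 d hd.1 hd.2.2).1.symm.trans hd.2.1)
  rw [e1, e2, e3, e4, e5]
  ring

namespace Cx

variable {A : Finset D} {e : D} {f : D → ℕ} {S : Finset V} {p l r : D}

theorem ecl2_main (hw : T_WALK) (h : Cx G A e f S p l r) (hpl : f p ≠ f l)
    (hlr : f l ≠ f r) {c : D} (hce : c ≠ e) (hca : G.src c = G.src e) (hc1 : f l = f c)
    (hc2 : f (G.inv r) = f c) : ∃ g, G.Pocket S g := by
  have c2 : f (G.inv r) = f l := hc2.trans hc1.symm
  obtain ⟨n, o, wk⟩ := h.walk hw c2 hpl hlr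
  obtain ⟨de1, de2, de3, de4, de5, de6⟩ := h.dist
  have oA : ∀ i ≤ n + 1, o i ∈ A := fun i hi => (wk.inA i hi).1
  have oO : ∀ i ≤ n + 1, f (o i) = f l := fun i hi => (wk.inA i hi).2
  have nO : ∀ i ≤ n + 1, f (G.inv (o i)) ≠ f l := by
    intro i hi h1
    exact h.F2 (oA i hi) ((oO i hi).trans h1.symm)
  have pre : ∀ i, 1 ≤ i → i ≤ n + 1 → G.tgt (o (i - 1)) = G.src (o i) := by
    intro i h1 h2
    have := (wk.nxt (i - 1) (by omega)).1
    rwa [Nat.sub_add_cancel h1] at this
  have vS : ∀ i, 1 ≤ i → i ≤ n + 1 → G.src (o i) ∈ S := by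
    intro i h1 h2
    have h3 := (wk.nxt (i - 1) (by omega)).2
    rwa [pre i h1 h2] at h3
  have vinj : ∀ i j, 1 ≤ i → i ≤ n + 1 → 1 ≤ j → j ≤ n + 1 → G.src (o i) = G.src (o j) →
      i = j := by
    intro i j h1 h2 h3 h4 h5
    rw [← pre i h1 h2, ← pre j h3 h4] at h5
    have := wk.inj (i - 1) (by omega) (j - 1) (by omega) h5
    omega
  have tl : G.tgt (o (n + 1)) ∉ S := by rw [wk.ol]; exact h.hl.2
  have s0 : G.src (o 0) ∉ S := by rw [wk.o0]; exact h.hr.2
  have oinj : ∀ i j, i ≤ n + 1 → j ≤ n + 1 → o i = o j → i = j := by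
    intro i j h1 h2 h3
    rcases Nat.eq_zero_or_pos i with rfl | hi
    · rcases Nat.eq_zero_or_pos j with rfl | hj
      · rfl
      · rw [h3] at s0
        exact absurd (vS j hj h2) s0
    · rcases Nat.eq_zero_or_pos j with rfl | hj
      · rw [← h3] at s0
        exact absurd (vS i hi h1) s0
      · exact vinj i j hi h1 hj h2 (by rw [h3])
  -- the darts at `a`
  have hcA : c ∈ A := h.memA' hce (hca ▸ h.eS)
  obtain ⟨c', hc'1, hc'2, hc'3⟩ := third h.cub (v := G.src e) (d1 := e) (d2 := c) (Ne.symm hce)
  have hc'A : c' ∈ A := h.memA' hc'2 (hc'1 ▸ h.eS)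
  have sta : ∀ d, G.src d = G.src e → d = e ∨ d = c ∨ d = c' := fun d hd =>
    three h.cub rfl hca hc'1 (Ne.symm hce) (Ne.symm hc'2) (Ne.symm hc'3) hd
  -- position on the walk
  obtain ⟨j0, hj0, hj1⟩ := wk.all c hcA (hca ▸ h.eS) hc1.symm
  obtain ⟨j, hj, hj2, hcj⟩ : ∃ j, 1 ≤ j ∧ j ≤ n + 1 ∧ c = o j := ⟨j0 + 1, by omega, by omega, hj1⟩
  have hpj : G.tgt (o (j - 1)) = G.src e := by rw [pre j hj hj2, ← hcj, hca]
  have hc'j : G.inv c' = o (j - 1) := by
    rcases sta (G.inv (o (j - 1))) hpj with h1 | h1 | h1
    · exact absurd h1 ((h.memA _).1 (h.clA _ (oA (j - 1) (by omega)))).1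
    · exfalso
      apply nO (j - 1) (by omega)
      rw [h1, hc1]
    · rw [← h1, G.inv_inv]
  obtain ⟨N, hN, hNO⟩ := exists_fresh f (f l)
  -- the darts which get the new label
  let T : Finset D := (range (n + 1 - j + 1)).image fun i => o (j + i)
  have memT : ∀ d, d ∈ T ↔ ∃ i, j ≤ i ∧ i ≤ n + 1 ∧ d = o i := by
    intro d
    simp only [T, mem_image, mem_range]
    constructor
    · rintro ⟨i, h1, h2⟩
      exact ⟨j + i, by omega, by omega, h2.symm⟩
    · rintro ⟨i, h1, h2, h3⟩
      exact ⟨i - j, by omega, by rw [Nat.add_sub_cancel' h1, h3]⟩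
  have TA : ∀ d ∈ T, d ∈ A ∧ f d = f l := by
    intro d hd
    obtain ⟨i, h1, h2, rfl⟩ := (memT d).1 hd
    exact ⟨oA i h2, oO i h2⟩
  let g : D → ℕ := fun d => if d = e then f l else if d = G.inv e then N else
    if d ∈ T then N else f d
  have ge : g e = f l := if_pos rfl
  have gie : g (G.inv e) = N := by
    simp only [g, if_neg (G.inv_ne e), if_true]
  have gT : ∀ d ∈ T, g d = N := by
    intro d hd
    have h1 := (h.memA d).1 (TA d hd).1
    simp only [g]
    rw [if_neg h1.1, if_neg h1.2, if_pos hd]
  have gA : ∀ d ∈ A, d ∉ T → g d = f d := by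
    intro d hd hd'
    have h1 := (h.memA d).1 hd
    simp only [g]
    rw [if_neg h1.1, if_neg h1.2, if_neg hd']
  have cls : ∀ d, d = e ∨ d = G.inv e ∨ d ∈ T ∨ (d ∈ A ∧ d ∉ T) := by
    intro d
    by_cases h1 : d ∈ A
    · by_cases h2 : d ∈ T
      · exact Or.inr (Or.inr (Or.inl h2))
      · exact Or.inr (Or.inr (Or.inr ⟨h1, h2⟩))
    · rw [h.memA] at h1
      by_cases h2 : d = e
      · exact Or.inl h2
      · right; left
        by_contra h3
        exact h1 ⟨h2, h3⟩
  have invT : ∀ d ∈ T, G.inv d ∉ T := by
    intro d hd hd'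
    exact h.F2 (TA d hd).1 ((TA d hd).2.trans (TA _ hd').2.symm)
  have ojT : ∀ i, i ≤ n + 1 → o i ∈ T → j ≤ i := by
    intro i h1 h2
    obtain ⟨i', h3, h4, h5⟩ := (memT _).1 h2
    have := oinj i i' h1 h4 h5
    omega
  have cT : c ∈ T := (memT c).2 ⟨j, le_refl _, hj2, hcj⟩
  have fc' : f c' ≠ f l := by
    intro h1
    apply h.F2 hc'A
    rw [h1, hc'j, oO (j - 1) (by omega)]
  refine ⟨g, ⟨⟨?_, ?_, ?_⟩, h.card4, h.big, h.co⟩⟩
  · intro v hv k
    by_cases hva : v = G.src e
    · subst hva
      have hset : ∀ q : D → Prop, (sel univ fun d => G.src d = G.src e ∧ q d) =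
          sel {e, c, c'} q := by
        intro q
        apply sel_congr
        intro d
        simp only [mem_insert, mem_singleton, mem_univ, true_and]
        constructor
        · rintro ⟨h4, h5⟩
          exact ⟨sta d h4, h5⟩
        · rintro ⟨h4, h5⟩
          refine ⟨?_, h5⟩
          rcases h4 with rfl | rfl | rfl
          · rfl
          · exact hca
          · exact hc'1
      have hsetA : ∀ q : D → Prop, (sel A fun d => G.src d = G.src e ∧ q d) =
          sel {c, c'} q := by
        intro q
        apply sel_congr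
        intro d
        simp only [mem_insert, mem_singleton]
        constructor
        · rintro ⟨h3, h4, h5⟩
          refine ⟨?_, h5⟩
          rcases sta d h4 with h6 | h6
          · exact absurd h6 ((h.memA d).1 h3).1
          · exact h6
        · rintro ⟨h4, h5⟩
          rcases h4 with rfl | rfl
          · exact ⟨hcA, hca, h5⟩
          · exact ⟨hc'A, hc'1, h5⟩
      have hcc : ∀ q : D → Prop, ∀ [DecidablePred q], (sel ({c, c'} : Finset D) q).card =
          (if q c then 1 else 0) + (if q c' then 1 else 0) := by
        intro q _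
        have e0 : ({c'} : Finset D) = insert c' ∅ := rfl
        have e2 : (sel (∅ : Finset D) q).card = 0 := by
          rw [card_eq_zero, eq_empty_iff_forall_notMem]
          intro d hd
          exact absurd (mem_sel.1 hd).1 (notMem_empty d)
        rw [card_sel_insert, e0, card_sel_insert, e2]
        · rfl
        · exact notMem_empty c'
        · rw [mem_singleton]; exact Ne.symm hc'3
      have hlab : f c' = f (G.inv c) := by
        have h4 := h.bal (G.src e) (f c')
        rw [hsetA, hsetA, hcc, hcc, hc'j, oO (j - 1) (by omega), ← hc1] at h4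
        simp only [if_true] at h4
        by_contra h5
        rw [if_neg (Ne.symm h5), if_neg (Ne.symm fc')] at h4
        omega
      rw [hset, hset, card_sel_three (Ne.symm hce) (Ne.symm hc'2) (Ne.symm hc'3),
        card_sel_three (Ne.symm hce) (Ne.symm hc'2) (Ne.symm hc'3), ge, gT c cT,
        gA c' hc'A (fun h4 => fc' (TA c' h4).2), gie, gA (G.inv c) (h.clA _ hcA) (invT c cT),
        hc'j, gA (o (j - 1)) (oA _ (by omega)) (fun h4 => by
          have := ojT (j - 1) (by omega) h4
          omega), oO (j - 1) (by omega), hlab]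
      ring
    · have vA : ∀ d, G.src d = v → d ∈ A := by
        intro d hd
        rw [h.memA]
        constructor
        · rintro rfl; exact hva hd.symm
        · rintro rfl
          have : v = G.tgt e := hd.symm
          exact h.te (this ▸ hv)
      let X : Finset D := sel univ fun d => G.src d = v
      have memX : ∀ d, d ∈ X ↔ G.src d = v := by
        intro d
        simp only [X, mem_sel, mem_univ, true_and]
      have hX : ∀ q : D → Prop, (sel univ fun d => G.src d = v ∧ q d) = sel X q := by
        intro q
        apply sel_congr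
        intro d
        rw [memX]
        simp only [mem_univ, true_and]
      have hXA : ∀ q : D → Prop, (sel A fun d => G.src d = v ∧ q d) = sel X q := by
        intro q
        apply sel_congr
        intro d
        rw [memX]
        constructor
        · exact fun h4 => h4.2
        · exact fun h4 => ⟨vA d h4.1, h4⟩
      have h1 := relabel X f g (fun d => d ∈ T) (f l) N
        (fun d _ hd => ⟨(TA d hd).2, gT d hd⟩) (fun d hd hd' => gA d (vA d ((memX d).1 hd)) hd') k
      have h2 := relabel X (fun d => f (G.inv d)) (fun d => g (G.inv d))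
        (fun d => G.inv d ∈ T) (f l) N
        (fun d _ hd => ⟨(TA _ hd).2, gT _ hd⟩)
        (fun d hd hd' => gA _ (h.clA _ (vA d ((memX d).1 hd))) hd') k
      have h3 := h.bal v k
      rw [hXA, hXA] at h3
      have h4 : (sel X fun d => d ∈ T).card = (sel X fun d => G.inv d ∈ T).card := by
        have e1 : (sel (Icc j n) fun i => G.tgt (o i) = v).card =
            (sel X fun d => d ∈ T).card := by
          refine card_bij (fun i _ => o (i + 1)) ?_ ?_ ?_
          · intro i hi
            rw [mem_sel, mem_Icc] at hi
            rw [mem_sel, memX]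
            exact ⟨by rw [← (wk.nxt i hi.1.2).1]; exact hi.2,
              (memT _).2 ⟨i + 1, by omega, by omega, rfl⟩⟩
          · intro i hi i' hi' h5
            rw [mem_sel, mem_Icc] at hi hi'
            have := oinj _ _ (by omega) (by omega) h5
            omega
          · intro d hd
            rw [mem_sel, memX] at hd
            obtain ⟨i, h5, h6, rfl⟩ := (memT d).1 hd.2
            have h7 : i ≠ j := by
              rintro rfl
              apply hva
              rw [← hd.1, ← hcj, hca]
            refine ⟨i - 1, ?_, ?_⟩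
            · rw [mem_sel, mem_Icc]
              refine ⟨⟨by omega, by omega⟩, ?_⟩
              rw [pre i (by omega) h6]
              exact hd.1
            · rw [Nat.sub_add_cancel (by omega)]
        have e2 : (sel (Icc j n) fun i => G.tgt (o i) = v).card =
            (sel X fun d => G.inv d ∈ T).card := by
          refine card_bij (fun i _ => G.inv (o i)) ?_ ?_ ?_
          · intro i hi
            rw [mem_sel, mem_Icc] at hi
            rw [mem_sel, memX, G.inv_inv]
            exact ⟨hi.2, (memT _).2 ⟨i, by omega, by omega, rfl⟩⟩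
          · intro i hi i' hi' h5
            rw [mem_sel, mem_Icc] at hi hi'
            exact oinj _ _ (by omega) (by omega) (inv_inj h5)
          · intro d hd
            rw [mem_sel, memX] at hd
            obtain ⟨i, h5, h6, h7⟩ := (memT _).1 hd.2
            have h8 : G.tgt (o i) = v := by rw [← h7, tgt_inv]; exact hd.1
            refine ⟨i, ?_, ?_⟩
            · rw [mem_sel, mem_Icc]
              refine ⟨⟨h5, ?_⟩, h8⟩
              by_contra h9
              have h10 : i = n + 1 := by omega
              rw [h10] at h8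
              rw [h8] at tl
              exact tl hv
            · rw [← h7, G.inv_inv]
        rw [← e1, e2]
      rw [hX, hX]
      rw [h4] at h1
      omega
  · intro x hx1 hx2 hx3
    have hx3' : ∀ k, ∑ d ∈ sel univ (fun d => g d = k), x d = 0 := by
      intro k
      rw [← hx3 k]
      symm
      apply sum_subset
      · intro d hd
        rw [mem_sel] at hd ⊢
        exact ⟨hd.1, hd.2.2⟩
      · intro d hd hd'
        apply hx2
        intro h1
        apply hd'
        rw [mem_sel] at hd ⊢
        exact ⟨hd.1, h1, hd.2⟩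
    have h2z : (2 : ZMod 2) = 0 := by decide
    have sN : sel univ (fun d => g d = N) = insert (G.inv e) T := by
      ext d
      rw [mem_sel, mem_insert]
      simp only [mem_univ, true_and]
      constructor
      · intro h1
        rcases cls d with h2 | h2 | h2 | h2
        · rw [h2, ge] at h1
          exact absurd h1 hNO
        · exact Or.inl h2
        · exact Or.inr h2
        · rw [gA d h2.1 h2.2] at h1
          exact absurd h1 (hN d)
      · rintro (rfl | h1)
        · exact gie
        · exact gT d h1
    have sO : sel univ (fun d => g d = f l) = insert e (sel A fun d => f d = f l ∧ d ∉ T) := by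
      ext d
      rw [mem_sel, mem_insert, mem_sel]
      simp only [mem_univ, true_and]
      constructor
      · intro h1
        rcases cls d with h2 | h2 | h2 | h2
        · exact Or.inl h2
        · rw [h2, gie] at h1
          exact absurd h1.symm hNO
        · rw [gT d h2] at h1
          exact absurd h1.symm hNO
        · rw [gA d h2.1 h2.2] at h1
          exact Or.inr ⟨h2.1, h1, h2.2⟩
      · rintro (rfl | h1)
        · exact ge
        · rw [gA d h1.1 h1.2.2]
          exact h1.2.1
    have sF : sel A (fun d => f d = f l) = (sel A fun d => f d = f l ∧ d ∉ T) ∪ T := by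
      ext d
      rw [mem_sel, mem_union, mem_sel]
      constructor
      · intro h1
        by_cases h2 : d ∈ T
        · exact Or.inr h2
        · exact Or.inl ⟨h1.1, h1.2, h2⟩
      · rintro (h1 | h1)
        · exact ⟨h1.1, h1.2.1⟩
        · exact TA d h1
    have ieT : G.inv e ∉ T := fun h1 => ((h.memA _).1 (TA _ h1).1).2 rfl
    have eF : e ∉ sel A fun d => f d = f l ∧ d ∉ T := fun h1 =>
      ((h.memA _).1 (mem_sel.1 h1).1).1 rfl
    have xN := hx3' N
    rw [sN, sum_insert ieT, hx1 e] at xN
    have xO := hx3' (f l)
    rw [sO, sum_insert eF] at xO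
    obtain ⟨W, hW⟩ := h.eul x hx1 (by
      intro k
      by_cases hk : k = f l
      · subst hk
        rw [sF, sum_union]
        · linear_combination xN + xO - x e * h2z
        · rw [disjoint_left]
          intro d hd
          exact (mem_sel.1 hd).2.2
      · by_cases hk' : k = N
        · subst hk'
          apply sum_eq_zero
          intro d hd
          exact absurd (mem_sel.1 hd).2 (hN d)
        · rw [← hx3' k]
          apply sum_congr _ (fun _ _ => rfl)
          ext d
          rw [mem_sel, mem_sel]
          simp only [mem_univ, true_and]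
          constructor
          · rintro ⟨h1, h2⟩
            rw [gA d h1 (fun h3 => hk ((TA d h3).2 ▸ h2.symm))]
            exact h2
          · intro h1
            rcases cls d with h2 | h2 | h2 | h2
            · rw [h2, ge] at h1
              exact absurd h1.symm hk
            · rw [h2, gie] at h1
              exact absurd h1.symm hk'
            · rw [gT d h2] at h1
              exact absurd h1.symm hk'
            · rw [gA d h2.1 h2.2] at h1
              exact ⟨h2.1, h1⟩)
    -- the outside is connected
    have hout : (∀ v, v ∉ S → v ∉ W) ∨ (∀ v, v ∉ S → v ∈ W) := by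
      by_contra hno
      push Not at hno
      obtain ⟨⟨u, hu1, hu2⟩, ⟨u', hu'1, hu'2⟩⟩ := hno
      let K : Finset V := sel Sᶜ fun v => v ∈ W
      let K' : Finset V := sel Sᶜ fun v => v ∉ W
      have memK : ∀ v, v ∈ K ↔ v ∉ S ∧ v ∈ W := by
        intro v
        simp only [K, mem_sel, mem_compl]
      have memK' : ∀ v, v ∈ K' ↔ v ∉ S ∧ v ∉ W := by
        intro v
        simp only [K', mem_sel, mem_compl]
      have noe : ∀ d, G.src d ∉ S → G.tgt d ∉ S → (G.src d ∈ W ↔ G.tgt d ∈ W) := by
        intro d h1 h2
        have h3 : d ∈ A := by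
          rw [h.memA]
          constructor
          · rintro rfl; exact h1 h.eS
          · rintro rfl
            rw [tgt_inv] at h2
            exact h2 h.eS
        have h4 := hW d h3
        rw [hx2 d (by
          unfold Tc
          rw [not_or]
          exact ⟨h1, h2⟩)] at h4
        exact ind_add_ind.1 h4.symm
      have h1 := h.c3 K ⟨u, (memK u).2 ⟨hu1, hu2⟩⟩ (by
        intro h1
        have : G.src e ∈ K := by rw [h1]; exact mem_univ _
        exact ((memK _).1 this).1 h.eS)
      have h2 := h.c3 K' ⟨u', (memK' u').2 ⟨hu'1, hu'2⟩⟩ (by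
        intro h1
        have : G.src e ∈ K' := by rw [h1]; exact mem_univ _
        exact ((memK' _).1 this).1 h.eS)
      have h3 : G.cut univ K ∪ G.cut univ K' ⊆ G.cut univ Sᶜ := by
        intro d hd
        rw [mem_union, mem_cut, mem_cut, memK, memK, memK', memK'] at hd
        rw [mem_cut, mem_compl, mem_compl, not_not]
        refine ⟨mem_univ _, ?_, ?_⟩
        · rcases hd with hd | hd
          · exact hd.2.1.1
          · exact hd.2.1.1
        · by_contra h4
          rcases hd with ⟨-, h5, h6⟩ | ⟨-, h5, h6⟩
          · exact h6 ⟨h4, (noe d h5.1 h4).1 h5.2⟩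
          · exact h6 ⟨h4, fun h7 => h5.2 ((noe d h5.1 h4).2 h7)⟩
      have h4 := card_le_card h3
      rw [card_union_of_disjoint, cut_compl cl_univ, h.card4] at h4
      · omega
      · rw [disjoint_left]
        intro d hd hd'
        rw [mem_cut, memK] at hd
        rw [mem_cut, memK'] at hd'
        exact hd'.2.1.2 hd.2.1.2
    obtain ⟨W', hWS, hW'⟩ : ∃ W' : Finset V, W' ⊆ S ∧
        ∀ d ∈ A, x d = ind W' (G.src d) + ind W' (G.tgt d) := by
      rcases hout with h1 | h1
      · refine ⟨W, fun v hv => ?_, hW⟩
        by_contra h2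
        exact h1 v h2 hv
      · refine ⟨Wᶜ, fun v hv => ?_, fun d hd => ?_⟩
        · by_contra h2
          exact (mem_compl.1 hv) (h1 v h2)
        · rw [hW d hd, ind_compl, ind_compl]
          linear_combination -h2z
    refine ⟨W', hWS, ?_⟩
    have hte : ind W' (G.tgt e) = 0 := if_neg fun h1 => h.te (hWS h1)
    have hsum : ∑ d ∈ T, x d = ind W' (G.src e) := by
      have h1 : ∑ d ∈ T, x d = ∑ i ∈ range (n + 1 - j + 1), x (o (j + i)) := by
        refine sum_image ?_
        intro i hi i' hi' h2
        rw [mem_coe, mem_range] at hi hi'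
        have := oinj _ _ (by omega) (by omega) h2
        omega
      rw [h1, path_sum (G := G) (W := W') (n + 1 - j) (fun i hi => hW' _ (oA _ (by omega)))
        (fun i hi => by
          have := (wk.nxt (j + i) (by omega)).1
          rwa [add_assoc] at this), ← hcj, hca, Nat.add_sub_cancel' hj2]
      have h3 : ind W' (G.tgt (o (n + 1))) = 0 := if_neg fun h1 => tl (hWS h1)
      rw [h3, add_zero]
    have hxe : x e = ind W' (G.src e) := by
      rw [hsum] at xN
      linear_combination xN - ind W' (G.src e) * h2z
    intro d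
    rcases cls d with h1 | h1 | h1 | h1
    · rw [h1, hte, add_zero, hxe]
    · rw [h1, hx1, src_inv, tgt_inv, hte, zero_add, hxe]
    · exact hW' d (TA d h1).1
    · exact hW' d h1.1
  · intro T0 _ hin hcl
    have noO : ∀ d ∈ T0, g d ≠ f l := by
      intro d hd h1
      have h2 : d ∈ A ∧ d ∉ T := by
        rcases cls d with h2 | h2 | h2 | h2
        · exact absurd (h2 ▸ (hin d hd).2) h.te
        · rw [h2, gie] at h1
          exact absurd h1.symm hNO
        · rw [gT d h2] at h1
          exact absurd h1.symm hNO
        · exact h2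
      rw [gA d h2.1 h2.2] at h1
      obtain ⟨i, hi, rfl⟩ := wk.all d h2.1 (hin d hd).1 h1
      have hij : i + 1 < j := by
        by_contra h3
        exact h2.2 ((memT _).2 ⟨i + 1, by omega, by omega, rfl⟩)
      have gi : ∀ m, m < j → g (o m) = f l := by
        intro m hm
        rw [gA (o m) (oA m (by omega)) (fun h3 => by
          have := ojT m (by omega) h3
          omega), oO m (by omega)]
      have step : ∀ m, i + 1 ≤ m → m ≤ j - 1 → o m ∈ T0 := by
        intro m hm
        induction m, hm using Nat.le_induction with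
        | base => exact fun _ => hd
        | succ m hm ih =>
          intro h3
          refine hcl (o m) (ih (by omega)) (o (m + 1)) (wk.nxt m (by omega)).1.symm ?_
          rw [gi m (by omega), gi (m + 1) (by omega)]
      have h3 := step (j - 1) (by omega) (le_refl _)
      have h4 := hcl _ h3 e hpj.symm (by rw [ge, gi (j - 1) (by omega)])
      exact h.te (hin e h4).2
    have noN : ∀ d ∈ T0, g d ≠ N := by
      intro d hd h1
      rcases cls d with h2 | h2 | h2 | h2
      · exact absurd (h2 ▸ (hin d hd).2) h.te
      · have h3 := (hin d hd).1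
        rw [h2, src_inv] at h3
        exact h.te h3
      · obtain ⟨i, h3, h4, rfl⟩ := (memT d).1 h2
        have step : ∀ m, i ≤ m → m ≤ n + 1 → o m ∈ T0 := by
          intro m hm
          induction m, hm using Nat.le_induction with
          | base => exact fun _ => hd
          | succ m hm ih =>
            intro h5
            refine hcl (o m) (ih (by omega)) (o (m + 1)) (wk.nxt m (by omega)).1.symm ?_
            rw [gT (o m) ((memT _).2 ⟨m, by omega, by omega, rfl⟩),
              gT (o (m + 1)) ((memT _).2 ⟨m + 1, by omega, by omega, rfl⟩)]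
        exact tl (hin _ (step (n + 1) h4 (le_refl _))).2
      · rw [gA d h2.1 h2.2] at h1
        exact hN d h1
    have inA : ∀ d ∈ T0, d ∈ A ∧ g d = f d := by
      intro d hd
      rcases cls d with h2 | h2 | h2 | h2
      · exact absurd (by rw [h2, ge]) (noO d hd)
      · exact absurd (by rw [h2, gie]) (noN d hd)
      · exact absurd (gT d h2) (noN d hd)
      · exact ⟨h2.1, gA d h2.1 h2.2⟩
    intro d hd d' _ h1
    have h2 : d' ∈ A ∧ g d' = f d' := by
      rcases cls d' with h2 | h2 | h2 | h2
      · exact absurd (by rw [← h1, h2, ge]) (noO d hd)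
      · exact absurd (by rw [← h1, h2, gie]) (noN d hd)
      · exact absurd (by rw [← h1, gT d' h2]) (noN d hd)
      · exact ⟨h2.1, gA d' h2.1 h2.2⟩
    refine h.orb T0 (fun d hd => (inA d hd).1) ⟨d, hd⟩ ?_ d hd d' h2.1 ?_
    · intro d1 hd1 d2 hd2 h3 h4
      refine hcl d1 hd1 d2 h3 ?_
      have h5 : d2 ∉ T := by
        intro h5
        apply noO d1 hd1
        rw [(inA d1 hd1).2, ← h4]
        exact (TA d2 h5).2
      rw [gA d2 hd2 h5, h4, (inA d1 hd1).2]
    · rw [← h2.2, h1, (inA d hd).2]

end Cx

theorem t_ecl2 (hw : T_WALK) : T_ECL2 := by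
  intro V D _ _ G hCub h3 h4 e f hbal heul horb S p l r heS hcut hcard hbig hco H
  have h : Cx G (univ \ {e, G.inv e}) e f S p l r :=
    { cub := hCub
      c3 := h3
      c4 := h4
      memA := fun d => by
        simp only [mem_sdiff, mem_univ, true_and, mem_insert, mem_singleton, not_or]
      clA := cl_sdiff_pair cl_univ e
      bal := hbal
      eul := heul
      orb := horb
      eS := heS
      cutS := hcut
      card4 := hcard
      big := hbig
      co := hco }
  obtain ⟨c, hc1, hc2, hc3, hc4⟩ := H
  obtain ⟨h1, h2, h5, -⟩ := h.shift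
  exact h.ecl2_main hw h1 h5 hc1 hc2 hc3 hc4

end Pool.Agent.H48.OC.ECL
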