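import Pool.Agent.H69.OC.Targets

/-!
# Base of the modules ECL1 and ECL2
-/

set_option autoImplicit false
set_option linter.unusedSectionVars false
open scoped Classical
open Finset

namespace Pool.Agent.H48.OC.ECL

open Pool.Agent.H69.OC Pool.Agent.H69.OC.DG

variable {V D : Type} [Fintype V] [Fintype D] {G : DG V D}

/-- three distinct darts at a vertex are all darts at this vertex -/
theorem three (hC : G.Cub) {v : V} {d1 d2 d3 : D} (h1 : G.src d1 = v) (h2 : G.src d2 = v)
    (h3 : G.src d3 = v) (h12 : d1 ≠ d2) (h13 : d1 ≠ d3) (h23 : d2 ≠ d3) {d : D}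
    (hd : G.src d = v) : d = d1 ∨ d = d2 ∨ d = d3 := by
  have hsub : ({d1, d2, d3} : Finset D) ⊆ sel univ fun d => G.src d = v := by
    intro c hc
    simp only [mem_insert, mem_singleton] at hc
    rw [mem_sel]
    refine ⟨mem_univ _, ?_⟩
    rcases hc with rfl | rfl | rfl <;> assumption
  have hcard : ({d1, d2, d3} : Finset D).card = 3 := by
    rw [card_insert_of_notMem, card_pair h23]
    simp only [mem_insert, mem_singleton, not_or]
    exact ⟨h12, h13⟩
  have heq := eq_of_subset_of_card_le hsub (by rw [hcard, hC v])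
  have : d ∈ ({d1, d2, d3} : Finset D) := by
    rw [heq, mem_sel]
    exact ⟨mem_univ _, hd⟩
  simpa only [mem_insert, mem_singleton] using this

/-- the third dart -/
theorem third (hC : G.Cub) {v : V} {d1 d2 : D} (h12 : d1 ≠ d2) :
    ∃ d3, G.src d3 = v ∧ d3 ≠ d1 ∧ d3 ≠ d2 := by
  have h : ¬ (sel univ fun d => G.src d = v) ⊆ ({d1, d2} : Finset D) := by
    intro h
    have := card_le_card h
    rw [hC v, card_pair h12] at this
    omega
  rw [not_subset] at h
  obtain ⟨d, hd, hd'⟩ := h
  simp only [mem_insert, mem_singleton, not_or] at hd'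
  exact ⟨d, (mem_sel.1 hd).2, hd'⟩

/-- arithmetic of three labels -/
theorem shift3 (a b c a' b' c' : ℕ) (ha : a ≠ a') (hb : b ≠ b') (hc : c ≠ c')
    (h : ∀ k : ℕ, (if a = k then 1 else 0) + (if b = k then 1 else 0) + (if c = k then 1 else 0) =
      (if a' = k then 1 else 0) + (if b' = k then 1 else 0) + (if c' = k then (1 : ℕ) else 0)) :
    a ≠ b ∧ a ≠ c ∧ b ≠ c ∧ ((b' = a ∧ c' = b ∧ a' = c) ∨ (c' = a ∧ b' = c ∧ a' = b)) := by
  have e1 : a' = b ∨ a' = c := by
    have := h a'
    by_contra hno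
    push Not at hno
    rw [if_neg ha, if_neg (Ne.symm hno.1), if_neg (Ne.symm hno.2), if_pos rfl] at this
    omega
  have e2 : b' = a ∨ b' = c := by
    have := h b'
    by_contra hno
    push Not at hno
    rw [if_neg (Ne.symm hno.1), if_neg hb, if_neg (Ne.symm hno.2)] at this
    simp only [if_true] at this
    omega
  have e3 : c' = a ∨ c' = b := by
    have := h c'
    by_contra hno
    push Not at hno
    rw [if_neg (Ne.symm hno.1), if_neg (Ne.symm hno.2), if_neg hc] at this
    simp only [if_true] at this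
    omega
  have h1 := h a
  have h2 := h b
  have h3 := h c
  rcases e1 with rfl | rfl <;> rcases e2 with rfl | rfl <;> rcases e3 with rfl | rfl <;>
    simp only [if_true] at h1 h2 h3 <;> split_ifs at h1 h2 h3 <;> omega

/-- the hypotheses -/
structure Cx (G : DG V D) (A : Finset D) (e : D) (f : D → ℕ) (S : Finset V) (p l r : D) :
    Prop where
  cub : G.Cub
  c3 : G.C3
  c4 : G.C4
  memA : ∀ d, d ∈ A ↔ d ≠ e ∧ d ≠ G.inv e
  clA : G.Cl A
  bal : G.Bal A f
  eul : G.Eul A f
  orb : G.Orb A f
  eS : G.src e ∈ S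
  cutS : ∀ d, d ∈ G.cut univ S ↔ (d = e ∨ d = p ∨ d = l ∨ d = r)
  card4 : (G.cut univ S).card = 4
  big : 4 ≤ S.card
  co : 2 ≤ Sᶜ.card

namespace Cx

variable {A : Finset D} {e : D} {f : D → ℕ} {S : Finset V} {p l r : D}

theorem swap (h : Cx G A e f S p l r) : Cx G A e f S p r l where
  cub := h.cub
  c3 := h.c3
  c4 := h.c4
  memA := h.memA
  clA := h.clA
  bal := h.bal
  eul := h.eul
  orb := h.orb
  eS := h.eS
  cutS := fun d => by
    rw [h.cutS]
    tauto
  card4 := h.card4
  big := h.big
  co := h.co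

theorem te (h : Cx G A e f S p l r) : G.tgt e ∉ S := by
  have := (h.cutS e).2 (Or.inl rfl)
  rw [mem_cut] at this
  exact this.2.2

theorem hp (h : Cx G A e f S p l r) : G.src p ∈ S ∧ G.tgt p ∉ S := by
  have := (h.cutS p).2 (Or.inr (Or.inl rfl))
  rw [mem_cut] at this
  exact this.2

theorem hl (h : Cx G A e f S p l r) : G.src l ∈ S ∧ G.tgt l ∉ S := by
  have := (h.cutS l).2 (Or.inr (Or.inr (Or.inl rfl)))
  rw [mem_cut] at this
  exact this.2

theorem hr (h : Cx G A e f S p l r) : G.src r ∈ S ∧ G.tgt r ∉ S := by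
  have := (h.cutS r).2 (Or.inr (Or.inr (Or.inr rfl)))
  rw [mem_cut] at this
  exact this.2

theorem cut_eq (h : Cx G A e f S p l r) : G.cut univ S = {e, p, l, r} := by
  ext d
  rw [h.cutS]
  simp only [mem_insert, mem_singleton]

theorem dist (h : Cx G A e f S p l r) : e ≠ p ∧ e ≠ l ∧ e ≠ r ∧ p ≠ l ∧ p ≠ r ∧ l ≠ r := by
  have h4 := h.card4
  rw [h.cut_eq] at h4
  refine ⟨?_, ?_, ?_, ?_, ?_, ?_⟩ <;> rintro rfl
  · have : ({e, e, l, r} : Finset D) ⊆ {e, l, r} := by
      intro d hd
      simp only [mem_insert, mem_singleton] at hd ⊢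
      tauto
    have h5 := (card_le_card this).trans card_le_three
    omega
  · have : ({e, p, e, r} : Finset D) ⊆ {e, p, r} := by
      intro d hd
      simp only [mem_insert, mem_singleton] at hd ⊢
      tauto
    have h5 := (card_le_card this).trans card_le_three
    omega
  · have : ({e, p, l, e} : Finset D) ⊆ {e, p, l} := by
      intro d hd
      simp only [mem_insert, mem_singleton] at hd ⊢
      tauto
    have h5 := (card_le_card this).trans card_le_three
    omega
  · have : ({e, p, p, r} : Finset D) ⊆ {e, p, r} := by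
      intro d hd
      simp only [mem_insert, mem_singleton] at hd ⊢
      tauto
    have h5 := (card_le_card this).trans card_le_three
    omega
  · have : ({e, p, l, p} : Finset D) ⊆ {e, p, l} := by
      intro d hd
      simp only [mem_insert, mem_singleton] at hd ⊢
      tauto
    have h5 := (card_le_card this).trans card_le_three
    omega
  · have : ({e, p, l, l} : Finset D) ⊆ {e, p, l} := by
      intro d hd
      simp only [mem_insert, mem_singleton] at hd ⊢
      tauto
    have h5 := (card_le_card this).trans card_le_three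
    omega

theorem memA' (h : Cx G A e f S p l r) {d : D} (h1 : d ≠ e) (h2 : G.src d ∈ S) : d ∈ A := by
  rw [h.memA]
  refine ⟨h1, ?_⟩
  rintro rfl
  exact h.te h2

theorem pA (h : Cx G A e f S p l r) : p ∈ A := h.memA' h.dist.1.symm h.hp.1
theorem lA (h : Cx G A e f S p l r) : l ∈ A := h.memA' h.dist.2.1.symm h.hl.1
theorem rA (h : Cx G A e f S p l r) : r ∈ A := h.memA' h.dist.2.2.1.symm h.hr.1

theorem cutA (h : Cx G A e f S p l r) (d : D) : d ∈ G.cut A S ↔ (d = p ∨ d = l ∨ d = r) := by
  constructor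
  · intro hd
    have h1 := mem_cut.1 hd
    have h2 := (h.cutS d).1 (mem_cut.2 ⟨mem_univ _, h1.2⟩)
    rcases h2 with h2 | h2
    · exact absurd h2 ((h.memA d).1 h1.1).1
    · exact h2
  · rintro (rfl | rfl | rfl)
    · exact mem_cut.2 ⟨h.pA, h.hp⟩
    · exact mem_cut.2 ⟨h.lA, h.hl⟩
    · exact mem_cut.2 ⟨h.rA, h.hr⟩

/-- a cut of `G` has at most one more edge than the cut of `G - e` -/
theorem cut_le (h : Cx G A e f S p l r) (W : Finset V) :
    (G.cut univ W).card ≤ (G.cut A W).card + 1 := by
  have h1 : G.cut univ W ⊆ G.cut A W ∪ sel {e, G.inv e} fun d => G.src d ∈ W ∧ G.tgt d ∉ W := by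
    intro d hd
    rw [mem_cut] at hd
    rw [mem_union, mem_cut, mem_sel, h.memA]
    simp only [mem_insert, mem_singleton]
    tauto
  have h2 : (sel {e, G.inv e} fun d => G.src d ∈ W ∧ G.tgt d ∉ W).card ≤ 1 := by
    rw [card_le_one]
    intro d hd d' hd'
    rw [mem_sel] at hd hd'
    simp only [mem_insert, mem_singleton] at hd hd'
    obtain ⟨h3 | h3, h4⟩ := hd <;> obtain ⟨h5 | h5, h6⟩ := hd'
    · rw [h3, h5]
    · rw [h5, tgt_inv, src_inv] at h6
      rw [h3] at h4
      exact absurd h4.1 h6.2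
    · rw [h3, tgt_inv, src_inv] at h4
      rw [h5] at h6
      exact absurd h6.1 h4.2
    · rw [h3, h5]
  exact (card_le_card h1).trans ((card_union_le _ _).trans (Nat.add_le_add_left h2 _))

theorem ne_of_cut {W : Finset V} {B : Finset D} (h : (G.cut B W).Nonempty) :
    W.Nonempty ∧ W ≠ univ := by
  obtain ⟨d, hd⟩ := h
  rw [mem_cut] at hd
  refine ⟨⟨_, hd.2.1⟩, ?_⟩
  rintro rfl
  exact hd.2.2 (mem_univ _)

/-- (F2) no dual loops -/
theorem F2 (h : Cx G A e f S p l r) {d : D} (hd : d ∈ A) : f d ≠ f (G.inv d) := by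
  intro hf
  obtain ⟨W, -, hW⟩ := h.eul.family h.clA (I := {0}) (k := fun _ => d) (by
    intro i hi j hj _
    rw [mem_singleton] at hi hj
    rw [hi, hj]) (fun _ _ => hd) (by
    intro c
    simp only [← hf]
    exact ⟨_, rfl⟩)
  rw [card_singleton] at hW
  have h1 := h.cut_le W
  have h2 := ne_of_cut (card_pos.1 (by omega : 0 < (G.cut A W).card))
  have h3 := h.c3 W h2.1 h2.2
  omega

/-- dual cycles of length two come from an end of `e` -/
theorem dual2 (h : Cx G A e f S p l r) {d d' : D} (hd : d ∈ A) (hd' : d' ∈ A) (hne : d ≠ d')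
    (hne' : d ≠ G.inv d') (h1 : f d = f d') (h2 : f (G.inv d) = f (G.inv d')) :
    ∃ u, (u = G.src e ∨ u = G.tgt e) ∧ (G.src d = u ∨ G.tgt d = u) ∧
      (G.src d' = u ∨ G.tgt d' = u) := by
  let k : ℕ → D := fun i => if i = 0 then d else d'
  have k0 : k 0 = d := rfl
  have k1 : k 1 = d' := rfl
  have hk : G.Dist {0, 1} k := by
    intro i hi j hj hij
    simp only [mem_insert, mem_singleton] at hi hj
    rcases hi with rfl | rfl <;> rcases hj with rfl | rfl
    · rfl
    · rw [k0, k1] at hij
      rcases hij with h3 | h3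
      · exact absurd h3 hne
      · exact absurd h3 hne'
    · rw [k0, k1] at hij
      rcases hij with h3 | h3
      · exact absurd h3.symm hne
      · exact absurd (inv_eq_iff.1 h3.symm) hne'
    · rfl
  obtain ⟨W, hW1, hW2⟩ := h.eul.family h.clA hk (by
    intro i hi
    simp only [mem_insert, mem_singleton] at hi
    rcases hi with rfl | rfl
    · exact hd
    · exact hd') (by
    intro c
    have key : ∀ q : D → ℕ, q d = q d' →
        Even (sel ({0, 1} : Finset ℕ) fun i => q (k i) = c).card := by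
      intro q hq
      by_cases h3 : q d = c
      · have : (sel ({0, 1} : Finset ℕ) fun i => q (k i) = c) = {0, 1} := by
          ext i
          rw [mem_sel]
          simp only [mem_insert, mem_singleton]
          constructor
          · exact fun h4 => h4.1
          · rintro (rfl | rfl)
            · exact ⟨Or.inl rfl, h3⟩
            · exact ⟨Or.inr rfl, hq ▸ h3⟩
        rw [this, card_pair (by norm_num)]
        exact ⟨1, rfl⟩
      · have : (sel ({0, 1} : Finset ℕ) fun i => q (k i) = c) = ∅ := by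
          rw [eq_empty_iff_forall_notMem]
          intro i hi
          rw [mem_sel] at hi
          simp only [mem_insert, mem_singleton] at hi
          rcases hi with ⟨rfl | rfl, h4⟩
          · exact h3 h4
          · exact h3 (hq.trans h4)
        rw [this, card_empty]
        exact ⟨0, rfl⟩
    exact (key f h1).add (key (fun x => f (G.inv x)) h2))
  rw [card_pair (by norm_num)] at hW2
  have h3 := h.cut_le W
  have h4 := ne_of_cut (card_pos.1 (by omega : 0 < (G.cut A W).card))
  have h5 := h.c3 W h4.1 h4.2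
  -- `e` is separated
  have hsep : ¬ (G.src e ∈ W ↔ G.tgt e ∈ W) := by
    intro h6
    have h7 : G.cut univ W ⊆ G.cut A W := by
      intro c hc
      rw [mem_cut] at hc ⊢
      refine ⟨(h.memA c).2 ⟨?_, ?_⟩, hc.2⟩
      · rintro rfl
        tauto
      · rintro rfl
        rw [tgt_inv, src_inv] at hc
        tauto
    have h8 := card_le_card h7
    omega
  have sd : ¬ (G.src d ∈ W ↔ G.tgt d ∈ W) := (hW1 d hd).2 ⟨0, by simp, Or.inl rfl⟩
  have sd' : ¬ (G.src d' ∈ W ↔ G.tgt d' ∈ W) := (hW1 d' hd').2 ⟨1, by simp, Or.inl rfl⟩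
  have h6 : ¬ (2 ≤ W.card ∧ 2 ≤ Wᶜ.card) := by
    rintro ⟨h7, h8⟩
    have := h.c4 W h7 h8
    omega
  have h7 : W.card ≤ 1 ∨ Wᶜ.card ≤ 1 := by omega
  obtain ⟨u, key⟩ : ∃ u, ∀ x y, ¬ (x ∈ W ↔ y ∈ W) → x = u ∨ y = u := by
    rcases h7 with h7 | h7
    · have h8 : W.card = 1 := le_antisymm h7 (card_pos.2 h4.1)
      obtain ⟨u, hu⟩ := card_eq_one.1 h8
      refine ⟨u, fun x y hxy => ?_⟩
      rw [hu, mem_singleton, mem_singleton] at hxy
      clear * - hxy
      tauto
    · have h8 : Wᶜ.card = 1 := by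
        refine le_antisymm h7 (card_pos.2 ?_)
        rw [nonempty_iff_ne_empty]
        intro h9
        exact h4.2 (compl_eq_empty_iff W |>.1 h9)
      obtain ⟨u, hu⟩ := card_eq_one.1 h8
      have key : ∀ v, v ∈ W ↔ v ≠ u := by
        intro v
        have : v ∈ Wᶜ ↔ v = u := by rw [hu, mem_singleton]
        rw [mem_compl] at this
        clear * - this
        tauto
      refine ⟨u, fun x y hxy => ?_⟩
      rw [key, key] at hxy
      clear * - hxy
      tauto
  exact ⟨u, (key _ _ hsep).imp Eq.symm Eq.symm, key _ _ sd, key _ _ sd'⟩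

theorem card_sel_insert {T : Type} {a : T} {s : Finset T} (ha : a ∉ s) (q : T → Prop)
    [DecidablePred q] : (sel (insert a s) q).card = (if q a then 1 else 0) + (sel s q).card := by
  by_cases h : q a
  · have h1 : sel (insert a s) q = insert a (sel s q) := by
      ext d
      rw [mem_sel, mem_insert, mem_insert, mem_sel]
      constructor
      · tauto
      · rintro (rfl | h2)
        · exact ⟨Or.inl rfl, h⟩
        · exact ⟨Or.inr h2.1, h2.2⟩
    rw [h1, card_insert_of_notMem (fun h2 => ha (mem_sel.1 h2).1), if_pos h, add_comm]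
  · have h1 : sel (insert a s) q = sel s q := by
      ext d
      rw [mem_sel, mem_insert, mem_sel]
      constructor
      · rintro ⟨rfl | h2, h3⟩
        · exact absurd h3 h
        · exact ⟨h2, h3⟩
      · tauto
    rw [h1, if_neg h, zero_add]

theorem card_sel_three {T : Type} {a b c : T} (h1 : a ≠ b) (h2 : a ≠ c) (h3 : b ≠ c)
    (q : T → Prop) [DecidablePred q] : (sel ({a, b, c} : Finset T) q).card =
    (if q a then 1 else 0) + (if q b then 1 else 0) + (if q c then 1 else 0) := by
  have e : ({c} : Finset T) = insert c ∅ := rfl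
  have e2 : (sel (∅ : Finset T) q).card = 0 := by
    rw [card_eq_zero, eq_empty_iff_forall_notMem]
    intro d hd
    exact absurd (mem_sel.1 hd).1 (notMem_empty d)
  rw [card_sel_insert, card_sel_insert, e, card_sel_insert, e2]
  · ring
  · exact notMem_empty c
  · rw [mem_singleton]; exact h3
  · simp only [mem_insert, mem_singleton, not_or]; exact ⟨h1, h2⟩

/-- the labels of the three dangling edges -/
theorem shift (h : Cx G A e f S p l r) : f p ≠ f l ∧ f p ≠ f r ∧ f l ≠ f r ∧
    ((f (G.inv l) = f p ∧ f (G.inv r) = f l ∧ f (G.inv p) = f r) ∨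
     (f (G.inv r) = f p ∧ f (G.inv l) = f r ∧ f (G.inv p) = f l)) := by
  have hc : G.cut A S = {p, l, r} := by
    ext d
    rw [h.cutA]
    simp only [mem_insert, mem_singleton]
  obtain ⟨-, -, -, d1, d2, d3⟩ := h.dist
  refine shift3 (f p) (f l) (f r) (f (G.inv p)) (f (G.inv l)) (f (G.inv r)) (h.F2 h.pA)
    (h.F2 h.lA) (h.F2 h.rA) ?_
  intro k
  have h1 := stokes h.clA (W := S) (fun v _ => h.bal v) k
  rw [hc, card_sel_three d1 d2 d3, card_sel_three d1 d2 d3] at h1
  exact h1

end Cx

end Pool.Agent.H48.OC.ECL
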