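import Pool.Agent.H69.OC.Targets

/-!
# Module EX2: second part of the extremal argument
-/

set_option autoImplicit false
set_option linter.unusedSectionVars false
open scoped Classical
open Finset

namespace Pool.Agent.H48.OC.EX2

open Pool.Agent.H69.OC Pool.Agent.H69.OC.DG

variable {V D : Type} [Fintype V] [Fintype D] {G : DG V D}

/-- three distinct darts at a vertex are all darts at this vertex -/
theorem three (hC : G.Cub) {v : V} {d1 d2 d3 : D} (h1 : G.src d1 = v) (h2 : G.src d2 = v)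
    (h3 : G.src d3 = v) (h12 : d1 ≠ d2) (h13 : d1 ≠ d3) (h23 : d2 ≠ d3) {d : D}
    (hd : G.src d = v) : d = d1 ∨ d = d2 ∨ d = d3 := by
  have hsub : ({d1, d2, d3} : Finset D) ⊆ sel univ fun d => G.src d = v := by
    intro c hc
    simp only [mem_insert, mem_singleton] at hc
    rw [mem_sel]
    refine ⟨mem_univ _, ?_⟩
    rcases hc with rfl | rfl | rfl <;> assumption
  have hcard : ({d1, d2, d3} : Finset D).card = 3 := by
    rw [card_insert_of_notMem, card_pair h23]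
    simp only [mem_insert, mem_singleton, not_or]
    exact ⟨h12, h13⟩
  have heq := eq_of_subset_of_card_le hsub (by rw [hcard, hC v])
  have : d ∈ ({d1, d2, d3} : Finset D) := by
    rw [heq, mem_sel]
    exact ⟨mem_univ _, hd⟩
  simpa only [mem_insert, mem_singleton] using this

/-- removing a leaf -/
theorem conn_erase_leaf {A : Finset D} (hA : G.Cl A) {X : Finset V} (hX : G.Conn A X) {a : V}
    (hleaf : ∀ d ∈ A, ∀ d' ∈ A, G.src d = a → G.src d' = a → G.tgt d ∈ X → G.tgt d ≠ a →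
      G.tgt d' ∈ X → G.tgt d' ≠ a → d = d') : G.Conn A (X \ {a}) := by
  intro Z hZ hne hZX
  by_contra hno
  push Not at hno
  have hZ' : ∀ v ∈ Z, v ∈ X ∧ v ≠ a := by
    intro v hv
    have := hZ hv
    simpa only [mem_sdiff, mem_singleton] using this
  have hK : ((X \ {a}) \ Z).Nonempty := by
    rw [sdiff_nonempty]
    intro h
    exact hZX (Subset.antisymm hZ h)
  have hK' : ∀ v ∈ (X \ {a}) \ Z, v ∈ X ∧ v ≠ a ∧ v ∉ Z := by
    intro v hv
    simp only [mem_sdiff, mem_singleton] at hv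
    tauto
  -- dart from Z to a
  have h1 : ∃ d ∈ A, G.src d ∈ Z ∧ G.tgt d = a := by
    obtain ⟨d, hd, hd1, hd2, hd3⟩ := hX Z (fun v hv => (hZ' v hv).1) hne (by
      rintro rfl
      obtain ⟨v, hv⟩ := hK
      exact (hK' v hv).2.2 (hK' v hv).1)
    refine ⟨d, hd, hd1, ?_⟩
    by_contra hta
    exact hd3 (hno d hd hd1 (by
      simp only [mem_sdiff, mem_singleton]
      exact ⟨hd2, hta⟩))
  have h2 : ∃ d ∈ A, G.src d ∈ (X \ {a}) \ Z ∧ G.tgt d = a := by
    obtain ⟨d, hd, hd1, hd2, hd3⟩ := hX ((X \ {a}) \ Z) (fun v hv => (hK' v hv).1) hK (by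
      intro h
      obtain ⟨v, hv⟩ := hne
      have : v ∈ (X \ {a}) \ Z := by
        rw [h]
        exact (hZ' v hv).1
      exact (hK' v this).2.2 hv)
    refine ⟨d, hd, hd1, ?_⟩
    by_contra hta
    have h3 : G.tgt d ∈ Z := by
      by_contra h4
      apply hd3
      simp only [mem_sdiff, mem_singleton]
      exact ⟨⟨hd2, hta⟩, h4⟩
    have h5 := hno (G.inv d) (hA _ hd) (by rw [src_inv]; exact h3) (by
      rw [tgt_inv]
      exact (mem_sdiff.1 hd1).1)
    rw [tgt_inv] at h5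
    exact (hK' _ hd1).2.2 h5
  obtain ⟨d, hd, hd1, hd2⟩ := h1
  obtain ⟨d', hd', hd1', hd2'⟩ := h2
  have h3 := hleaf (G.inv d) (hA _ hd) (G.inv d') (hA _ hd') hd2 hd2'
    (by rw [tgt_inv]; exact (hZ' _ hd1).1) (by rw [tgt_inv]; exact (hZ' _ hd1).2)
    (by rw [tgt_inv]; exact (hK' _ hd1').1) (by rw [tgt_inv]; exact (hK' _ hd1').2.1)
  have h4 := inv_inj h3
  subst h4
  exact (hK' _ hd1').2.2 hd1

/-- `w` separates `a` from `b` in `C` and has one dart leaving `C` -/
structure Sp (G : DG V D) (A : Finset D) (C : Finset V) (a b w : V) (z da db : D) : Prop where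
  inC : w ∈ C
  sz : G.src z = w
  tz : G.tgt z ∉ C
  sa : G.src da = w
  ta : G.tgt da ∈ G.comp A (C \ {w}) a
  sb : G.src db = w
  tb : G.tgt db ∈ G.comp A (C \ {w}) b
  star : ∀ d, G.src d = w → d = z ∨ d = da ∨ d = db
  tri : ∀ v ∈ C, v = w ∨ v ∈ G.comp A (C \ {w}) a ∨ v ∈ G.comp A (C \ {w}) b
  dis : ∀ v, v ∈ G.comp A (C \ {w}) a → v ∈ G.comp A (C \ {w}) b → False
  mA : ∀ d, G.src d = w → d ∈ A

theorem Sp.symm {A : Finset D} {C : Finset V} {a b w : V} {z da db : D}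
    (h : Sp G A C a b w z da db) : Sp G A C b a w z db da where
  inC := h.inC
  sz := h.sz
  tz := h.tz
  sa := h.sb
  ta := h.tb
  sb := h.sa
  tb := h.ta
  star := fun d hd => by
    rcases h.star d hd with h1 | h1 | h1
    · exact Or.inl h1
    · exact Or.inr (Or.inr h1)
    · exact Or.inr (Or.inl h1)
  tri := fun v hv => by
    rcases h.tri v hv with h1 | h1 | h1
    · exact Or.inl h1
    · exact Or.inr (Or.inr h1)
    · exact Or.inr (Or.inl h1)
  dis := fun v h1 h2 => h.dis v h2 h1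
  mA := h.mA

theorem comp_mem {A : Finset D} {C : Finset V} {a w v : V} (h : v ∈ G.comp A (C \ {w}) a) :
    v ∈ C ∧ v ≠ w := by
  have := comp_sub h
  simpa only [mem_sdiff, mem_singleton] using this

theorem exists_dart_to_comp {A : Finset D} (hA : G.Cl A) {C : Finset V} (hC : G.Conn A C)
    {a w : V} (ha : a ∈ C) (hw : w ∈ C) (hwa : w ≠ a) :
    ∃ d ∈ A, G.src d = w ∧ G.tgt d ∈ G.comp A (C \ {w}) a := by
  have ha' : a ∈ G.comp A (C \ {w}) a := by
    rw [mem_comp]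
    apply Reach.refl
    simp only [mem_sdiff, mem_singleton]
    exact ⟨ha, fun h => hwa h.symm⟩
  obtain ⟨d, hd, h1, h2, h3⟩ := hC (G.comp A (C \ {w}) a) (fun v hv => (comp_mem hv).1)
    ⟨a, ha'⟩ (by
      intro h
      have : w ∈ G.comp A (C \ {w}) a := by rw [h]; exact hw
      exact (comp_mem this).2 rfl)
  have h4 : G.tgt d = w := by
    by_contra h4
    exact h3 (comp_closed hd h1 (by
      simp only [mem_sdiff, mem_singleton]
      exact ⟨h2, h4⟩))
  exact ⟨G.inv d, hA _ hd, h4, by rw [tgt_inv]; exact h1⟩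

theorem sp_exists (hCub : G.Cub) {A : Finset D} (hA : G.Cl A) {C : Finset V} (hC : G.Conn A C)
    {a b w : V} (ha : a ∈ C) (hb : b ∈ C) (hw : w ∈ C) (hwa : w ≠ a) (hwb : w ≠ b)
    (hmA : ∀ d, G.src d = w → d ∈ A) (nr : ¬ G.Reach A (C \ {w}) a b) {z : D}
    (hz : G.src z = w) (hz' : G.tgt z ∉ C) : ∃ da db, Sp G A C a b w z da db := by
  obtain ⟨da, hda, hda1, hda2⟩ := exists_dart_to_comp hA hC ha hw hwa
  obtain ⟨db, hdb, hdb1, hdb2⟩ := exists_dart_to_comp hA hC hb hw hwb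
  have dis : ∀ v, v ∈ G.comp A (C \ {w}) a → v ∈ G.comp A (C \ {w}) b → False := by
    intro v h1 h2
    rw [mem_comp] at h1 h2
    exact nr (h1.trans (h2.symm hA))
  have star : ∀ d, G.src d = w → d = z ∨ d = da ∨ d = db := by
    intro d hd
    refine three hCub hz hda1 hdb1 ?_ ?_ ?_ hd
    · rintro rfl
      exact hz' (comp_mem hda2).1
    · rintro rfl
      exact hz' (comp_mem hdb2).1
    · rintro rfl
      exact dis _ hda2 hdb2
  refine ⟨da, db, ⟨hw, hz, hz', hda1, hda2, hdb1, hdb2, star, ?_, dis, hmA⟩⟩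
  intro v hv
  by_contra hno
  push Not at hno
  obtain ⟨h1, h2, h3⟩ := hno
  -- the rest
  let R := sel C fun u => u ≠ w ∧ u ∉ G.comp A (C \ {w}) a ∧ u ∉ G.comp A (C \ {w}) b
  have hR : ∀ u, u ∈ R ↔ u ∈ C ∧ u ≠ w ∧ u ∉ G.comp A (C \ {w}) a ∧
      u ∉ G.comp A (C \ {w}) b := fun u => mem_sel
  obtain ⟨d, hd, h4, h5, h6⟩ := hC R (fun u hu => ((hR u).1 hu).1) ⟨v, (hR v).2 ⟨hv, h1, h2, h3⟩⟩
    (by
      intro h
      have : w ∈ R := by rw [h]; exact hw
      exact ((hR w).1 this).2.1 rfl)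
  have h7 := (hR _).1 h4
  have key : ∀ c, G.tgt d ∈ G.comp A (C \ {w}) c → G.src d ∈ G.comp A (C \ {w}) c := by
    intro c hc
    have := comp_closed (d := G.inv d) (hA _ hd) (by rw [src_inv]; exact hc) (by
      rw [tgt_inv]
      simp only [mem_sdiff, mem_singleton]
      exact ⟨h7.1, h7.2.1⟩)
    rwa [tgt_inv] at this
  have h8 : G.tgt d = w := by
    by_contra h8
    apply h6
    rw [hR]
    exact ⟨h5, h8, fun h => h7.2.2.1 (key a h), fun h => h7.2.2.2 (key b h)⟩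
  rcases star (G.inv d) h8 with h | h | h
  · apply hz'
    rw [← h, tgt_inv]
    exact h7.1
  · apply h7.2.2.1
    rw [← h, tgt_inv] at hda2
    exact hda2
  · apply h7.2.2.2
    rw [← h, tgt_inv] at hdb2
    exact hdb2

/-- nesting -/
theorem Sp.nest {A : Finset D} (hA : G.Cl A) {C : Finset V} {a b w w' : V} {z da db z' da' db' : D}
    (h : Sp G A C a b w z da db) (h' : Sp G A C a b w' z' da' db') (hb : b ∈ C) (hwb : w ≠ b)
    (hm : w' ∈ G.comp A (C \ {w}) a) :
    G.comp A (C \ {w'}) a ⊂ G.comp A (C \ {w}) a ∧ w ∈ G.comp A (C \ {w'}) b := by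
  have hww : w ≠ w' := fun h => (comp_mem hm).2 h.symm
  have hbb : b ∈ G.comp A (C \ {w}) b := by
    rw [mem_comp]
    apply Reach.refl
    simp only [mem_sdiff, mem_singleton]
    exact ⟨hb, fun h => hwb h.symm⟩
  have hcon : G.Conn A (G.comp A (C \ {w}) b ∪ {w}) := by
    refine (conn_comp hA).union hA conn_singleton (d := G.inv db) (hA _ (h.mA _ h.sb)) ?_ ?_
    · rw [src_inv]; exact h.tb
    · rw [tgt_inv, mem_singleton]; exact h.sb
  have hsub : G.comp A (C \ {w}) b ∪ {w} ⊆ C \ {w'} := by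
    intro v hv
    rw [mem_union, mem_singleton] at hv
    simp only [mem_sdiff, mem_singleton]
    rcases hv with hv | rfl
    · refine ⟨(comp_mem hv).1, ?_⟩
      rintro rfl
      exact h.dis _ hm hv
    · exact ⟨h.inC, hww⟩
  have hb' : ∀ v ∈ G.comp A (C \ {w}) b ∪ {w}, v ∈ G.comp A (C \ {w'}) b := by
    intro v hv
    rw [mem_comp]
    exact (hcon.reach (mem_union_left _ hbb) hv).mono (Subset.refl _) hsub
  have hw : w ∈ G.comp A (C \ {w'}) b := hb' w (mem_union_right _ (mem_singleton_self _))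
  refine ⟨?_, hw⟩
  rw [ssubset_iff_of_subset]
  · exact ⟨w', hm, fun h => (comp_mem h).2 rfl⟩
  · intro v hv
    rcases h.tri v (comp_mem hv).1 with h1 | h1 | h1
    · subst h1
      exact absurd hw (fun h2 => h'.dis _ hv h2)
    · exact h1
    · exact absurd (hb' v (mem_union_left _ h1)) (fun h2 => h'.dis _ hv h2)


/-- the middle part between `x` and `y` is connected -/
theorem conn_mid {A : Finset D} (hA : G.Cl A) {C : Finset V} (hC : G.Conn A C)
    {a b x y : V} {zx dax dbx zy day dby : D}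
    (hx : Sp G A C a b x zx dax dbx) (hy : Sp G A C a b y zy day dby)
    (hyx : y ∈ G.comp A (C \ {x}) b) (M0 : Finset V)
    (hM : ∀ v, v ∈ M0 ↔ v ∈ C ∧ v ≠ x ∧ v ≠ y ∧ v ∉ G.comp A (C \ {x}) a ∧
      v ∉ G.comp A (C \ {y}) b) : G.Conn A M0 := by
  have hM1 : ∀ v ∈ M0, v ∈ G.comp A (C \ {x}) b := by
    intro v hv
    have h := (hM v).1 hv
    rcases hx.tri v h.1 with h1 | h1 | h1
    · exact absurd h1 h.2.1
    · exact absurd h1 h.2.2.2.1
    · exact h1
  have hM2 : ∀ v ∈ M0, v ∈ G.comp A (C \ {y}) a := by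
    intro v hv
    have h := (hM v).1 hv
    rcases hy.tri v h.1 with h1 | h1 | h1
    · exact absurd h1 h.2.2.1
    · exact h1
    · exact absurd h1 h.2.2.2.2
  have step : ∀ d ∈ A, G.src d ∈ M0 → G.tgt d ∈ C → G.tgt d ∈ M0 ∨ G.tgt d = x ∨ G.tgt d = y := by
    intro d hd h1 h2
    by_contra hno
    push Not at hno
    obtain ⟨h3, h4, h5⟩ := hno
    apply h3
    rw [hM]
    refine ⟨h2, h4, h5, fun h6 => ?_, fun h6 => ?_⟩
    · exact hx.dis _ h6 (comp_closed hd (hM1 _ h1) (by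
        simp only [mem_sdiff, mem_singleton]; exact ⟨h2, h4⟩))
    · exact hy.dis _ (comp_closed hd (hM2 _ h1) (by
        simp only [mem_sdiff, mem_singleton]; exact ⟨h2, h5⟩)) h6
  have ux : ∀ d, G.src d = x → G.tgt d ∈ M0 → d = dbx := by
    intro d h1 h2
    rcases hx.star d h1 with h | h | h
    · exact absurd ((hM _).1 h2).1 (h ▸ hx.tz)
    · exact absurd (h ▸ hx.ta) ((hM _).1 h2).2.2.2.1
    · exact h
  have uy : ∀ d, G.src d = y → G.tgt d ∈ M0 → d = day := by
    intro d h1 h2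
    rcases hy.star d h1 with h | h | h
    · exact absurd ((hM _).1 h2).1 (h ▸ hy.tz)
    · exact h
    · exact absurd (h ▸ hy.tb) ((hM _).1 h2).2.2.2.2
  -- two closed disjoint parts, one attached to `x`, the other one to `y`
  have key : ∀ L L' : Finset V, L ⊆ M0 → L' ⊆ M0 → (∀ v ∈ L, v ∉ L') →
      (∀ d ∈ A, G.src d ∈ L → G.tgt d ∈ M0 → G.tgt d ∈ L) →
      ∀ d1 ∈ A, G.src d1 ∈ L → G.tgt d1 = x → ∀ d2 ∈ A, G.src d2 ∈ L' → G.tgt d2 = y →
      False := by
    intro L L' hL hL' hdis hcl d1 hd1 h1 h1' d2 hd2 h2 h2'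
    have hi1 : G.inv d1 = dbx := ux _ h1' (by rw [tgt_inv]; exact hL h1)
    have hi2 : G.inv d2 = day := uy _ h2' (by rw [tgt_inv]; exact hL' h2)
    obtain ⟨d3, hd3, h3, h4, h5⟩ := hC (G.comp A (C \ {x}) a ∪ {x} ∪ L) (by
        intro v hv
        simp only [mem_union, mem_singleton] at hv
        rcases hv with (hv | hv) | hv
        · exact (comp_mem hv).1
        · rw [hv]; exact hx.inC
        · exact ((hM v).1 (hL hv)).1) ⟨x, by simp⟩ (by
        intro h
        have hyC : y ∈ G.comp A (C \ {x}) a ∪ {x} ∪ L := by rw [h]; exact hy.inC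
        simp only [mem_union, mem_singleton] at hyC
        rcases hyC with (hv | hv) | hv
        · exact hx.dis _ hv hyx
        · exact (comp_mem hyx).2 hv
        · exact ((hM y).1 (hL hv)).2.2.1 rfl)
    simp only [mem_union, mem_singleton, not_or] at h3 h5
    rcases h3 with (h3 | h3) | h3
    · exact h5.1.1 (comp_closed hd3 h3 (by
        simp only [mem_sdiff, mem_singleton]; exact ⟨h4, h5.1.2⟩))
    · rcases hx.star d3 h3 with h | h | h
      · exact hx.tz (h ▸ h4)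
      · exact h5.1.1 (h ▸ hx.ta)
      · rw [← hi1] at h
        rw [h, tgt_inv] at h5
        exact h5.2 h1
    · rcases step d3 hd3 (hL h3) h4 with h | h | h
      · exact h5.2 (hcl d3 hd3 h3 h)
      · exact h5.1.2 h
      · have hi3 : G.inv d3 = day := uy _ h (by rw [tgt_inv]; exact hL h3)
        have h6 := inv_inj (hi3.trans hi2.symm)
        rw [h6] at h3
        exact hdis _ h3 h2
  intro K hK hne hKM
  by_contra hno
  push Not at hno
  have hK' : ∀ v, v ∈ M0 \ K ↔ v ∈ M0 ∧ v ∉ K := fun v => mem_sdiff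
  have hKn : (M0 \ K).Nonempty := by
    rw [sdiff_nonempty]
    intro h
    exact hKM (Subset.antisymm hK h)
  have hno' : ∀ d ∈ A, G.src d ∈ M0 \ K → G.tgt d ∈ M0 → G.tgt d ∈ M0 \ K := by
    intro d hd h1 h2
    rw [hK'] at h1 ⊢
    refine ⟨h2, fun h3 => h1.2 ?_⟩
    have := hno (G.inv d) (hA _ hd) (by rw [src_inv]; exact h3) (by rw [tgt_inv]; exact h1.1)
    rwa [tgt_inv] at this
  have exits : ∀ L : Finset V, L ⊆ M0 → L.Nonempty →
      (∀ d ∈ A, G.src d ∈ L → G.tgt d ∈ M0 → G.tgt d ∈ L) →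
      ∃ d ∈ A, G.src d ∈ L ∧ (G.tgt d = x ∨ G.tgt d = y) := by
    intro L hL hLn hcl
    obtain ⟨d, hd, h1, h2, h3⟩ := hC L (fun v hv => ((hM v).1 (hL hv)).1) hLn (by
      intro h
      have : x ∈ L := by rw [h]; exact hx.inC
      exact ((hM x).1 (hL this)).2.1 rfl)
    refine ⟨d, hd, h1, ?_⟩
    rcases step d hd (hL h1) h2 with h | h | h
    · exact absurd (hcl d hd h1 h) h3
    · exact Or.inl h
    · exact Or.inr h
  obtain ⟨d1, hd1, h1, h1'⟩ := exits K hK hne hno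
  obtain ⟨d2, hd2, h2, h2'⟩ := exits (M0 \ K) sdiff_subset hKn hno'
  rcases h1' with h1' | h1' <;> rcases h2' with h2' | h2'
  · have e1 : G.inv d1 = dbx := ux _ h1' (by rw [tgt_inv]; exact hK h1)
    have e2 : G.inv d2 = dbx := ux _ h2' (by rw [tgt_inv]; exact ((hK' _).1 h2).1)
    have e3 := inv_inj (e1.trans e2.symm)
    subst e3
    exact ((hK' _).1 h2).2 h1
  · exact key K (M0 \ K) hK sdiff_subset (fun v hv h => ((hK' v).1 h).2 hv) hno d1 hd1 h1 h1'
      d2 hd2 h2 h2'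
  · exact key (M0 \ K) K sdiff_subset hK (fun v hv => ((hK' v).1 hv).2) hno' d2 hd2 h2 h2'
      d1 hd1 h1 h1'
  · have e1 : G.inv d1 = day := uy _ h1' (by rw [tgt_inv]; exact hK h1)
    have e2 : G.inv d2 = day := uy _ h2' (by rw [tgt_inv]; exact ((hK' _).1 h2).1)
    have e3 := inv_inj (e1.trans e2.symm)
    subst e3
    exact ((hK' _).1 h2).2 h1


/-- edges leaving the middle part inside `C` end in `x` or `y` -/
theorem mid_step {A : Finset D} {C : Finset V}
    {a b x y : V} {zx dax dbx zy day dby : D}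
    (hx : Sp G A C a b x zx dax dbx) (hy : Sp G A C a b y zy day dby) (M0 : Finset V)
    (hM : ∀ v, v ∈ M0 ↔ v ∈ C ∧ v ≠ x ∧ v ≠ y ∧ v ∉ G.comp A (C \ {x}) a ∧
      v ∉ G.comp A (C \ {y}) b) {d : D} (hd : d ∈ A) (h1 : G.src d ∈ M0) (h2 : G.tgt d ∈ C) :
    G.tgt d ∈ M0 ∨ G.tgt d = x ∨ G.tgt d = y := by
  have hM1 : ∀ v ∈ M0, v ∈ G.comp A (C \ {x}) b := by
    intro v hv
    have h := (hM v).1 hv
    rcases hx.tri v h.1 with h1 | h1 | h1
    · exact absurd h1 h.2.1
    · exact absurd h1 h.2.2.2.1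
    · exact h1
  have hM2 : ∀ v ∈ M0, v ∈ G.comp A (C \ {y}) a := by
    intro v hv
    have h := (hM v).1 hv
    rcases hy.tri v h.1 with h1 | h1 | h1
    · exact absurd h1 h.2.2.1
    · exact h1
    · exact absurd h1 h.2.2.2.2
  by_contra hno
  push Not at hno
  obtain ⟨h3, h4, h5⟩ := hno
  apply h3
  rw [hM]
  refine ⟨h2, h4, h5, fun h6 => ?_, fun h6 => ?_⟩
  · exact hx.dis _ h6 (comp_closed hd (hM1 _ h1) (by
      simp only [mem_sdiff, mem_singleton]; exact ⟨h2, h4⟩))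
  · exact hy.dis _ (comp_closed hd (hM2 _ h1) (by
      simp only [mem_sdiff, mem_singleton]; exact ⟨h2, h5⟩)) h6

/-- the hypotheses -/
structure Ctx (G : DG V D) (A : Finset D) (e : D) (B Z C : Finset V) : Prop where
  cub : G.Cub
  c3 : G.C3
  c4 : G.C4
  clA : G.Cl A
  memA : ∀ d, d ∈ A ↔ d ≠ e ∧ d ≠ G.inv e
  hab : G.src e ≠ G.tgt e
  hB : B.Nonempty
  hZ : Z.Nonempty
  dis : ∀ v ∈ B, v ∉ Z
  memC : ∀ v, v ∈ C ↔ v ∉ B ∧ v ∉ Z
  aC : G.src e ∈ C
  bC : G.tgt e ∈ C
  conZ : G.Conn A Z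
  conC : G.Conn A C
  P : ∀ Q W : Finset V, (∀ v ∈ Q, v ∉ B) → G.Conn A Q → (∀ v ∈ W, v ∉ B ∧ v ∉ Q) →
    G.Conn A W → G.src e ∈ W → G.tgt e ∈ W → (G.ee Q B).card ≤ 1
  N : ∀ d, G.src d ∈ C → G.tgt d ∈ Z → G.src d ≠ G.src e → G.src d ≠ G.tgt e →
    ¬ G.Reach A (C \ {G.src d}) (G.src e) (G.tgt e)

theorem Ctx.swap {A : Finset D} {e : D} {B Z C : Finset V} (h : Ctx G A e B Z C) :
    Ctx G A (G.inv e) B Z C where
  cub := h.cub
  c3 := h.c3
  c4 := h.c4
  clA := h.clA
  memA := fun d => by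
    rw [h.memA, G.inv_inv]
    exact and_comm
  hab := by rw [src_inv, tgt_inv]; exact h.hab.symm
  hB := h.hB
  hZ := h.hZ
  dis := h.dis
  memC := h.memC
  aC := by rw [src_inv]; exact h.bC
  bC := by rw [tgt_inv]; exact h.aC
  conZ := h.conZ
  conC := h.conC
  P := fun Q W h1 h2 h3 h4 h5 h6 => by
    rw [src_inv] at h5
    rw [tgt_inv] at h6
    exact h.P Q W h1 h2 h3 h4 h6 h5
  N := fun d h1 h2 h3 h4 h5 => by
    rw [src_inv] at h3 h5
    rw [tgt_inv] at h4 h5
    exact h.N d h1 h2 h4 h3 (h5.symm h.clA)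

namespace Ctx

variable {A : Finset D} {e : D} {B Z C : Finset V}

theorem mA (h : Ctx G A e B Z C) {d : D} (h1 : G.src d ≠ G.src e) (h2 : G.src d ≠ G.tgt e) :
    d ∈ A := by
  rw [h.memA]
  constructor
  · rintro rfl; exact h1 rfl
  · rintro rfl; exact h2 rfl

theorem not_C {v : V} (h : Ctx G A e B Z C) (hv : v ∈ Z) : v ∉ C := fun h1 => ((h.memC v).1 h1).2 hv

theorem not_B {v : V} (h : Ctx G A e B Z C) (hv : v ∈ Z) : v ∉ B := fun h1 => h.dis v h1 hv

theorem ZB (h : Ctx G A e B Z C) : (G.ee Z B).card ≤ 1 :=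
  h.P Z C (fun _ hv => h.not_B hv) h.conZ (fun v hv => (h.memC v).1 hv) h.conC h.aC h.bC

theorem ZC (h : Ctx G A e B Z C) : 2 ≤ (G.ee Z C).card := by
  have h1 := h.c3 Z h.hZ (by
    rintro rfl
    exact h.not_C (mem_univ _) h.aC)
  have h2 : G.cut univ Z ⊆ G.ee Z B ∪ G.ee Z C := by
    intro d hd
    rw [mem_cut] at hd
    rw [mem_union, mem_ee, mem_ee, h.memC]
    tauto
  have h3 := (card_le_card h2).trans (card_union_le _ _)
  have h4 := h.ZB
  omega

theorem spw (h : Ctx G A e B Z C) {w : V} (hw : w ∈ C) (h1 : w ≠ G.src e) (h2 : w ≠ G.tgt e)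
    {z : D} (hz : G.src z = w) (hz' : G.tgt z ∈ Z) :
    ∃ da db, Sp G A C (G.src e) (G.tgt e) w z da db := by
  refine sp_exists h.cub h.clA h.conC h.aC h.bC hw h1 h2 ?_ ?_ hz (h.not_C hz')
  · intro d hd
    exact h.mA (hd ▸ h1) (hd ▸ h2)
  · have := h.N z (hz ▸ hw) hz' (hz ▸ h1) (hz ▸ h2)
    rwa [hz] at this

/-- vertices different from `a`, `b` with an edge to `Z` -/
noncomputable def N0 (G : DG V D) (e : D) (Z C : Finset V) : Finset V :=
  sel C fun w => w ≠ G.src e ∧ w ≠ G.tgt e ∧ ∃ z, G.src z = w ∧ G.tgt z ∈ Z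

theorem mem_N0 {w : V} : w ∈ N0 G e Z C ↔
    w ∈ C ∧ w ≠ G.src e ∧ w ≠ G.tgt e ∧ ∃ z, G.src z = w ∧ G.tgt z ∈ Z := mem_sel

theorem spN0 (h : Ctx G A e B Z C) {w : V} (hw : w ∈ N0 G e Z C) :
    ∃ z da db, G.tgt z ∈ Z ∧ Sp G A C (G.src e) (G.tgt e) w z da db := by
  obtain ⟨h1, h2, h3, z, h4, h5⟩ := mem_N0.1 hw
  obtain ⟨da, db, h6⟩ := h.spw h1 h2 h3 h4 h5
  exact ⟨z, da, db, h5, h6⟩

theorem star_a (h : Ctx G A e B Z C) {za : D} (h1 : G.src za = G.src e) (h2 : G.tgt za ∈ Z) :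
    ∃ ca, ca ∈ A ∧ G.src ca = G.src e ∧ G.tgt ca ∈ C ∧ G.tgt ca ≠ G.src e ∧
      ∀ d, G.src d = G.src e → d = e ∨ d = za ∨ d = ca := by
  obtain ⟨ca, hca, h3, h4, h5⟩ := h.conC {G.src e} (by
    intro v hv
    rw [mem_singleton] at hv
    rw [hv]; exact h.aC) ⟨_, mem_singleton_self _⟩ (by
    intro h6
    have : G.tgt e ∈ ({G.src e} : Finset V) := by rw [h6]; exact h.bC
    exact h.hab (mem_singleton.1 this).symm)
  rw [mem_singleton] at h3 h5
  refine ⟨ca, hca, h3, h4, h5, fun d hd => three h.cub rfl h1 h3 ?_ ?_ ?_ hd⟩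
  · rintro rfl
    exact h.not_C h2 h.bC
  · rintro rfl
    exact ((h.memA _).1 hca).1 rfl
  · rintro rfl
    exact h.not_C h2 h4

theorem caseC (h : Ctx G A e B Z C) {za zb : D} (h1 : G.src za = G.src e) (h2 : G.tgt za ∈ Z)
    (h3 : G.src zb = G.tgt e) (h4 : G.tgt zb ∈ Z) : False := by
  obtain ⟨ca, hca, ca1, ca2, ca3, sta⟩ := h.star_a h1 h2
  obtain ⟨cb, hcb, cb1, cb2, cb3, stb⟩ := h.swap.star_a (za := zb) (by rw [src_inv]; exact h3) h4
  rw [src_inv] at cb1 cb3
  have stb' : ∀ d, G.src d = G.tgt e → d = G.inv e ∨ d = zb ∨ d = cb := stb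
  have con1 : G.Conn A (C \ {G.src e}) := by
    refine conn_erase_leaf h.clA h.conC ?_
    have u : ∀ d ∈ A, G.src d = G.src e → G.tgt d ∈ C → d = ca := by
      intro d hd h5 h6
      rcases sta d h5 with h7 | h7 | h7
      · exact absurd h7 ((h.memA d).1 hd).1
      · exact absurd (h7 ▸ h6) (h.not_C h2)
      · exact h7
    intro d hd d' hd' h5 h5' h6 _ h6' _
    rw [u d hd h5 h6, u d' hd' h5' h6']
  have con2 : G.Conn A ((C \ {G.src e}) \ {G.tgt e}) := by
    refine conn_erase_leaf h.clA con1 ?_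
    have u : ∀ d ∈ A, G.src d = G.tgt e → G.tgt d ∈ C \ {G.src e} → d = cb := by
      intro d hd h5 h6
      rcases stb' d h5 with h7 | h7 | h7
      · exact absurd h7 ((h.memA d).1 hd).2
      · exact absurd (h7 ▸ (mem_sdiff.1 h6).1) (h.not_C h4)
      · exact h7
    intro d hd d' hd' h5 h5' h6 _ h6' _
    rw [u d hd h5 h6, u d' hd' h5' h6']
  have memQ : ∀ v, v ∈ (C \ {G.src e}) \ {G.tgt e} ↔ v ∈ C ∧ v ≠ G.src e ∧ v ≠ G.tgt e := by
    intro v
    simp only [mem_sdiff, mem_singleton]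
    tauto
  have conW : G.Conn A ({G.src e} ∪ Z ∪ {G.tgt e}) := by
    have hza : za ∈ A := by
      rw [h.memA]
      constructor
      · rintro rfl; exact h.not_C h2 h.bC
      · rintro rfl; exact h.hab h1.symm
    have hzb : zb ∈ A := by
      rw [h.memA]
      constructor
      · rintro rfl; exact h.hab h3
      · rintro rfl
        rw [tgt_inv] at h4
        exact h.not_C h4 h.aC
    refine ((conn_singleton.union h.clA h.conZ hza (by rw [mem_singleton]; exact h1) h2)).union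
      h.clA conn_singleton (d := G.inv zb) (h.clA _ hzb) ?_ ?_
    · rw [src_inv]; exact mem_union_right _ h4
    · rw [tgt_inv, mem_singleton]; exact h3
  have hQ := h.P ((C \ {G.src e}) \ {G.tgt e}) ({G.src e} ∪ Z ∪ {G.tgt e})
    (fun v hv => ((h.memC v).1 ((memQ v).1 hv).1).1) con2 (by
      intro v hv
      simp only [mem_union, mem_singleton] at hv
      rw [memQ]
      rcases hv with (rfl | hv) | rfl
      · exact ⟨((h.memC _).1 h.aC).1, fun h5 => h5.2.1 rfl⟩
      · exact ⟨h.not_B hv, fun h5 => h.not_C hv h5.1⟩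
      · exact ⟨((h.memC _).1 h.bC).1, fun h5 => h5.2.2 rfl⟩) conW (by simp) (by simp)
  have hcut : G.cut univ B ⊆ G.ee B Z ∪ G.ee B ((C \ {G.src e}) \ {G.tgt e}) := by
    intro d hd
    rw [mem_cut] at hd
    rw [mem_union, mem_ee, mem_ee, memQ]
    by_cases h5 : G.tgt d ∈ Z
    · exact Or.inl ⟨hd.2.1, h5⟩
    · right
      refine ⟨hd.2.1, (h.memC _).2 ⟨hd.2.2, h5⟩, ?_, ?_⟩
      · intro h6
        rcases sta (G.inv d) h6 with h7 | h7 | h7
        · have : G.tgt e ∈ B := by rw [← h7, tgt_inv]; exact hd.2.1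
          exact ((h.memC _).1 h.bC).1 this
        · have : G.tgt za ∈ B := by rw [← h7, tgt_inv]; exact hd.2.1
          exact h.not_B h2 this
        · have : G.tgt ca ∈ B := by rw [← h7, tgt_inv]; exact hd.2.1
          exact ((h.memC _).1 ca2).1 this
      · intro h6
        rcases stb' (G.inv d) h6 with h7 | h7 | h7
        · have : G.src e ∈ B := by rw [← inv_inj h7]; exact hd.2.1
          exact ((h.memC _).1 h.aC).1 this
        · have : G.tgt zb ∈ B := by rw [← h7, tgt_inv]; exact hd.2.1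
          exact h.not_B h4 this
        · have : G.tgt cb ∈ B := by rw [← h7, tgt_inv]; exact hd.2.1
          exact ((h.memC _).1 cb2).1 this
  have h5 := (card_le_card hcut).trans (card_union_le _ _)
  rw [ee_comm B Z, ee_comm B] at h5
  have h6 := h.c3 B h.hB (by
    rintro rfl
    exact ((h.memC _).1 h.aC).1 (mem_univ _))
  have h7 := h.ZB
  omega


/-- an element of `N0` minimising the `b`-component -/
theorem min_b (h : Ctx G A e B Z C) (hne : (N0 G e Z C).Nonempty) :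
    ∃ y z da db, y ∈ N0 G e Z C ∧ G.tgt z ∈ Z ∧ Sp G A C (G.src e) (G.tgt e) y z da db ∧
      ∀ w ∈ N0 G e Z C, w ∉ G.comp A (C \ {y}) (G.tgt e) := by
  obtain ⟨y, hy, hmin⟩ := exists_min_image (N0 G e Z C)
    (fun w => (G.comp A (C \ {w}) (G.tgt e)).card) hne
  obtain ⟨z, da, db, hz, hsp⟩ := h.spN0 hy
  refine ⟨y, z, da, db, hy, hz, hsp, fun w hw hm => ?_⟩
  obtain ⟨z', da', db', hz', hsp'⟩ := h.spN0 hw
  have h1 := hsp.symm.nest h.clA hsp'.symm h.aC (mem_N0.1 hy).2.1 hm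
  have h2 := card_lt_card h1.1
  have h3 := hmin w hw
  omega

theorem min_a (h : Ctx G A e B Z C) (hne : (N0 G e Z C).Nonempty) :
    ∃ x z da db, x ∈ N0 G e Z C ∧ G.tgt z ∈ Z ∧ Sp G A C (G.src e) (G.tgt e) x z da db ∧
      ∀ w ∈ N0 G e Z C, w ∉ G.comp A (C \ {x}) (G.src e) := by
  obtain ⟨x, hx, hmin⟩ := exists_min_image (N0 G e Z C)
    (fun w => (G.comp A (C \ {w}) (G.src e)).card) hne
  obtain ⟨z, da, db, hz, hsp⟩ := h.spN0 hx
  refine ⟨x, z, da, db, hx, hz, hsp, fun w hw hm => ?_⟩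
  obtain ⟨z', da', db', hz', hsp'⟩ := h.spN0 hw
  have h1 := hsp.nest h.clA hsp' h.bC (mem_N0.1 hx).2.2.1 hm
  have h2 := card_lt_card h1.1
  have h3 := hmin w hw
  omega

theorem self_mem_comp {A : Finset D} {C : Finset V} {a w : V} (ha : a ∈ C) (hwa : w ≠ a) :
    a ∈ G.comp A (C \ {w}) a := by
  rw [mem_comp]
  apply Reach.refl
  simp only [mem_sdiff, mem_singleton]
  exact ⟨ha, fun h => hwa h.symm⟩

theorem even_of_parity (h : Ctx G A e B Z C) {S : Finset V} (h4 : (G.cut univ S).card = 4)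
    (h3 : 3 ≤ S.card) : 4 ≤ S.card := by
  obtain ⟨k, hk⟩ := cut_parity h.cub S
  omega

/-- the vertex `a` has an edge to `Z`, the vertex `b` has none -/
theorem caseB (h : Ctx G A e B Z C) {za : D} (h1 : G.src za = G.src e) (h2 : G.tgt za ∈ Z)
    (h3 : ∀ d, G.src d = G.tgt e → G.tgt d ∉ Z) :
    ∃ (p l r : D) (S : Finset V), G.src e ∈ S ∧
    (∀ d, d ∈ G.cut univ S ↔ (d = e ∨ d = p ∨ d = l ∨ d = r)) ∧ (G.cut univ S).card = 4 ∧
    4 ≤ S.card ∧ 2 ≤ Sᶜ.card ∧
    ∀ Q ⊆ S, G.Conn A Q → G.src l ∈ Q → G.src r ∈ Q →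
      ¬ G.Reach A (S \ Q) (G.src e) (G.src p) := by
  obtain ⟨ca, hca, ca1, ca2, ca3, sta⟩ := h.star_a h1 h2
  have hza : za ∈ A := by
    rw [h.memA]
    constructor
    · rintro rfl; exact h.not_C h2 h.bC
    · rintro rfl; exact h.hab h1.symm
  -- uniqueness of the dart from `a` to `Z`
  have uza : ∀ d, G.src d = G.src e → G.tgt d ∈ Z → d = za := by
    intro d hd hd'
    rcases sta d hd with h5 | h5 | h5
    · rw [h5] at hd'; exact absurd h.bC (h.not_C hd')
    · exact h5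
    · rw [h5] at hd'; exact absurd ca2 (h.not_C hd')
  have hne : (N0 G e Z C).Nonempty := by
    obtain ⟨d1, hd1, d2, hd2, hne⟩ := one_lt_card.1 (Nat.lt_of_succ_le h.ZC)
    rw [mem_ee] at hd1 hd2
    by_cases h5 : G.tgt d1 = G.src e
    · have h6 : G.tgt d2 ≠ G.src e := by
        intro h6
        apply hne
        have e1 := uza (G.inv d1) h5 (by rw [tgt_inv]; exact hd1.1)
        have e2 := uza (G.inv d2) h6 (by rw [tgt_inv]; exact hd2.1)
        exact inv_inj (e1.trans e2.symm)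
      refine ⟨G.tgt d2, mem_N0.2 ⟨hd2.2, h6, ?_, G.inv d2, rfl, by rw [tgt_inv]; exact hd2.1⟩⟩
      intro h7
      exact h3 (G.inv d2) h7 (by rw [tgt_inv]; exact hd2.1)
    · refine ⟨G.tgt d1, mem_N0.2 ⟨hd1.2, h5, ?_, G.inv d1, rfl, by rw [tgt_inv]; exact hd1.1⟩⟩
      intro h7
      exact h3 (G.inv d1) h7 (by rw [tgt_inv]; exact hd1.1)
  obtain ⟨y, zy, day, dby, hy, hzy, hsp, hmin⟩ := h.min_b hne
  obtain ⟨hyC, hya, hyb, -⟩ := mem_N0.1 hy
  set La := G.comp A (C \ {y}) (G.src e) with hLa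
  set Lb := G.comp A (C \ {y}) (G.tgt e) with hLb
  have haLa : G.src e ∈ La := self_mem_comp h.aC hya
  have hbLb : G.tgt e ∈ Lb := self_mem_comp h.bC hyb
  have hLaC : ∀ v ∈ La, v ∈ C ∧ v ≠ y := fun v hv => comp_mem hv
  have hLbC : ∀ v ∈ Lb, v ∈ C ∧ v ≠ y := fun v hv => comp_mem hv
  have clLa : ∀ d ∈ A, G.src d ∈ La → G.tgt d ∈ C → G.tgt d = y ∨ G.tgt d ∈ La := by
    intro d hd h5 h6
    by_cases h7 : G.tgt d = y
    · exact Or.inl h7
    · exact Or.inr (comp_closed hd h5 (by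
        simp only [mem_sdiff, mem_singleton]; exact ⟨h6, h7⟩))
  have hM0 : G.Conn A (La \ {G.src e}) := by
    refine conn_erase_leaf h.clA (conn_comp h.clA) ?_
    have u : ∀ d ∈ A, G.src d = G.src e → G.tgt d ∈ La → d = ca := by
      intro d hd h5 h6
      rcases sta d h5 with h7 | h7 | h7
      · exact absurd h7 ((h.memA d).1 hd).1
      · exact absurd (hLaC _ (h7 ▸ h6)).1 (h.not_C h2)
      · exact h7
    intro d hd d' hd' h5 h5' h6 _ h6' _
    rw [u d hd h5 h6, u d' hd' h5' h6']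
  have memM : ∀ v, v ∈ La \ {G.src e} ↔ v ∈ La ∧ v ≠ G.src e := by
    intro v
    simp only [mem_sdiff, mem_singleton]
  have conW : G.Conn A ({G.src e} ∪ Z ∪ {y} ∪ Lb) := by
    refine (((conn_singleton.union h.clA h.conZ hza (by rw [mem_singleton]; exact h1) h2)).union
      h.clA conn_singleton (d := G.inv zy) (h.clA _ (hsp.mA _ hsp.sz)) ?_ ?_).union h.clA
      (conn_comp h.clA) (d := dby) (hsp.mA _ hsp.sb) ?_ hsp.tb
    · rw [src_inv]; exact mem_union_right _ hzy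
    · rw [tgt_inv, mem_singleton]; exact hsp.sz
    · rw [hsp.sb]; simp
  have hP1 := h.P (La \ {G.src e}) ({G.src e} ∪ Z ∪ {y} ∪ Lb)
    (fun v hv => ((h.memC v).1 (hLaC v ((memM v).1 hv).1).1).1) hM0 (by
      intro v hv
      simp only [mem_union, mem_singleton] at hv
      rw [memM]
      rcases hv with ((rfl | hv) | rfl) | hv
      · exact ⟨((h.memC _).1 h.aC).1, fun h5 => h5.2 rfl⟩
      · exact ⟨h.not_B hv, fun h5 => h.not_C hv (hLaC _ h5.1).1⟩
      · exact ⟨((h.memC _).1 hyC).1, fun h5 => (hLaC _ h5.1).2 rfl⟩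
      · exact ⟨((h.memC _).1 (hLbC _ hv).1).1, fun h5 => hsp.dis _ h5.1 hv⟩) conW (by simp)
      (mem_union_right _ hbLb)
  -- the set `S`
  let S : Finset V := Z ∪ La ∪ {y}
  have memS : ∀ v, v ∈ S ↔ v ∈ Z ∨ v ∈ La ∨ v = y := by
    intro v
    simp only [S, mem_union, mem_singleton]
    tauto
  have hSC : ∀ v ∈ C, v ∉ S → v ∈ Lb := by
    intro v hv hvS
    rw [memS] at hvS
    rcases hsp.tri v hv with h5 | h5 | h5
    · exact absurd (Or.inr (Or.inr h5)) hvS
    · exact absurd (Or.inr (Or.inl h5)) hvS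
    · exact h5
  have hLbS : ∀ v ∈ Lb, v ∉ S := by
    intro v hv hvS
    rw [memS] at hvS
    rcases hvS with h5 | h5 | h5
    · exact h.not_C h5 (hLbC v hv).1
    · exact hsp.dis v h5 hv
    · exact (hLbC v hv).2 h5
  have hBS : ∀ v ∈ B, v ∉ S := by
    intro v hv hvS
    rw [memS] at hvS
    rcases hvS with h5 | h5 | h5
    · exact h.dis v hv h5
    · exact ((h.memC v).1 (hLaC v h5).1).1 hv
    · exact ((h.memC v).1 (h5 ▸ hyC)).1 hv
  have cutS : ∀ d ∈ G.cut univ S, d = e ∨ d = dby ∨ d ∈ G.ee Z B ∨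
      d ∈ G.ee (La \ {G.src e}) B := by
    intro d hd
    rw [mem_cut] at hd
    obtain ⟨-, hd1, hd2⟩ := hd
    have hdZ : G.tgt d ∉ Z := fun h5 => hd2 ((memS _).2 (Or.inl h5))
    rcases (memS _).1 hd1 with h5 | h5 | h5
    · -- source in `Z`
      by_cases h6 : G.tgt d ∈ B
      · exact Or.inr (Or.inr (Or.inl (mem_ee.2 ⟨h5, h6⟩)))
      · exfalso
        have h7 : G.tgt d ∈ C := (h.memC _).2 ⟨h6, hdZ⟩
        have h8 := hSC _ h7 hd2
        refine hmin (G.tgt d) (mem_N0.2 ⟨h7, ?_, ?_, G.inv d, rfl, by rw [tgt_inv]; exact h5⟩) h8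
        · intro h9
          exact hsp.dis _ haLa (h9 ▸ h8)
        · intro h9
          exact h3 (G.inv d) h9 (by rw [tgt_inv]; exact h5)
    · by_cases h6 : G.src d = G.src e
      · rcases sta d h6 with h7 | h7 | h7
        · exact Or.inl h7
        · exact absurd (h7 ▸ h2) hdZ
        · exfalso
          rw [h7] at hd2 h5
          rcases clLa ca hca h5 ca2 with h8 | h8
          · exact hd2 ((memS _).2 (Or.inr (Or.inr h8)))
          · exact hd2 ((memS _).2 (Or.inr (Or.inl h8)))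
      · by_cases h7 : G.tgt d ∈ B
        · exact Or.inr (Or.inr (Or.inr (mem_ee.2 ⟨(memM _).2 ⟨h5, h6⟩, h7⟩)))
        · exfalso
          have h8 : G.tgt d ∈ C := (h.memC _).2 ⟨h7, hdZ⟩
          have h9 : d ∈ A := h.mA h6 (fun h9 => hsp.dis _ (h9 ▸ h5) hbLb)
          rcases clLa d h9 h5 h8 with h8 | h8
          · exact hd2 ((memS _).2 (Or.inr (Or.inr h8)))
          · exact hd2 ((memS _).2 (Or.inr (Or.inl h8)))
    · rcases hsp.star d h5 with h6 | h6 | h6
      · exact absurd (h6 ▸ hzy) hdZ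
      · exfalso
        exact hd2 ((memS _).2 (Or.inr (Or.inl (h6 ▸ hsp.ta))))
      · exact Or.inr (Or.inl h6)
  have hsub : G.cut univ S ⊆ {e, dby} ∪ (G.ee Z B ∪ G.ee (La \ {G.src e}) B) := by
    intro d hd
    simp only [mem_union, mem_insert, mem_singleton]
    rcases cutS d hd with h5 | h5 | h5 | h5
    · exact Or.inl (Or.inl h5)
    · exact Or.inl (Or.inr h5)
    · exact Or.inr (Or.inl h5)
    · exact Or.inr (Or.inr h5)
  have hcard : (G.cut univ S).card ≤ 2 + ((G.ee Z B).card + (G.ee (La \ {G.src e}) B).card) :=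
    (card_le_card hsub).trans ((card_union_le _ _).trans
      (Nat.add_le_add card_le_two (card_union_le _ _)))
  obtain ⟨z0, hz0⟩ := h.hZ
  obtain ⟨b0, hb0⟩ := h.hB
  have hS3 : 3 ≤ S.card := by
    have hs : ({G.src e, y, z0} : Finset V) ⊆ S := by
      intro v hv
      simp only [mem_insert, mem_singleton] at hv
      rw [memS]
      rcases hv with rfl | rfl | rfl
      · exact Or.inr (Or.inl haLa)
      · exact Or.inr (Or.inr rfl)
      · exact Or.inl hz0
    have hc : ({G.src e, y, z0} : Finset V).card = 3 := by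
      rw [card_insert_of_notMem, card_pair]
      · rintro rfl; exact h.not_C hz0 hyC
      · simp only [mem_insert, mem_singleton, not_or]
        exact ⟨hya.symm, fun h5 => h.not_C hz0 (h5 ▸ h.aC)⟩
    rw [← hc]
    exact card_le_card hs
  have hSc : 2 ≤ Sᶜ.card := by
    have hs : ({G.tgt e, b0} : Finset V) ⊆ Sᶜ := by
      intro v hv
      simp only [mem_insert, mem_singleton] at hv
      rw [mem_compl]
      rcases hv with rfl | rfl
      · exact hLbS _ hbLb
      · exact hBS _ hb0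
    have hc : ({G.tgt e, b0} : Finset V).card = 2 := by
      rw [card_pair]
      rintro rfl
      exact ((h.memC _).1 h.bC).1 hb0
    rw [← hc]
    exact card_le_card hs
  have h4 := h.c4 S (by omega) hSc
  have hZB := h.ZB
  have h5 : (G.ee Z B).card = 1 := by omega
  have h6 : (G.ee (La \ {G.src e}) B).card = 1 := by omega
  have h7 : (G.cut univ S).card = 4 := by omega
  obtain ⟨l, hl⟩ := card_eq_one.1 h5
  obtain ⟨r, hr⟩ := card_eq_one.1 h6
  have hl' : G.src l ∈ Z ∧ G.tgt l ∈ B := by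
    rw [← mem_ee, hl]; exact mem_singleton_self _
  have hr' : G.src r ∈ La \ {G.src e} ∧ G.tgt r ∈ B := by
    rw [← mem_ee, hr]; exact mem_singleton_self _
  refine ⟨dby, l, r, S, (memS _).2 (Or.inr (Or.inl haLa)), ?_, h7, h.even_of_parity h7 hS3, hSc, ?_⟩
  · intro d
    constructor
    · intro hd
      rcases cutS d hd with h8 | h8 | h8 | h8
      · exact Or.inl h8
      · exact Or.inr (Or.inl h8)
      · rw [hl, mem_singleton] at h8
        exact Or.inr (Or.inr (Or.inl h8))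
      · rw [hr, mem_singleton] at h8
        exact Or.inr (Or.inr (Or.inr h8))
    · rintro (rfl | rfl | rfl | rfl)
      · rw [mem_cut]
        exact ⟨mem_univ _, (memS _).2 (Or.inr (Or.inl haLa)), hLbS _ hbLb⟩
      · rw [mem_cut]
        exact ⟨mem_univ _, (memS _).2 (Or.inr (Or.inr hsp.sb)), hLbS _ hsp.tb⟩
      · rw [mem_cut]
        exact ⟨mem_univ _, (memS _).2 (Or.inl hl'.1), hBS _ hl'.2⟩
      · rw [mem_cut]
        exact ⟨mem_univ _, (memS _).2 (Or.inr (Or.inl ((memM _).1 hr'.1).1)), hBS _ hr'.2⟩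
  · intro Q hQ hQc hlQ hrQ hreach
    have hcW : G.Conn A (G.comp A (S \ Q) (G.src e) ∪ Lb) := by
      refine (conn_comp h.clA).union h.clA (conn_comp h.clA) (hsp.mA _ hsp.sb) ?_ hsp.tb
      rw [mem_comp]
      exact hreach
    have h8 := h.P Q (G.comp A (S \ Q) (G.src e) ∪ Lb) (fun v hv h9 => hBS v h9 (hQ hv)) hQc (by
      intro v hv
      rw [mem_union] at hv
      rcases hv with hv | hv
      · have h9 := comp_sub hv
        rw [mem_sdiff] at h9
        exact ⟨fun h10 => hBS v h10 h9.1, h9.2⟩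
      · exact ⟨((h.memC _).1 (hLbC _ hv).1).1, fun h10 => hLbS v hv (hQ h10)⟩) hcW
      (mem_union_left _ (mem_comp.2 (Reach.refl hreach.1))) (mem_union_right _ hbLb)
    have h9 : ({l, r} : Finset D) ⊆ G.ee Q B := by
      intro d hd
      simp only [mem_insert, mem_singleton] at hd
      rw [mem_ee]
      rcases hd with rfl | rfl
      · exact ⟨hlQ, hl'.2⟩
      · exact ⟨hrQ, hr'.2⟩
    have h10 := card_le_card h9
    rw [card_pair] at h10
    · omega
    · rintro rfl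
      exact h.not_C hl'.1 (hLaC _ ((memM _).1 hr'.1).1).1

/-- neither `a` nor `b` has an edge to `Z` -/
theorem caseA (h : Ctx G A e B Z C) (h2 : ∀ d, G.src d = G.src e → G.tgt d ∉ Z)
    (h3 : ∀ d, G.src d = G.tgt e → G.tgt d ∉ Z) :
    ∃ S : Finset V, G.src e ∉ S ∧ G.tgt e ∉ S ∧ (G.cut univ S).card = 4 ∧ 4 ≤ S.card ∧
    3 ≤ Sᶜ.card := by
  obtain ⟨d1, hd1, d2, hd2, hne⟩ := one_lt_card.1 (Nat.lt_of_succ_le h.ZC)
  rw [mem_ee] at hd1 hd2
  have mN : ∀ d, G.src d ∈ Z → G.tgt d ∈ C → G.tgt d ∈ N0 G e Z C := by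
    intro d hd hd'
    refine mem_N0.2 ⟨hd', ?_, ?_, G.inv d, rfl, by rw [tgt_inv]; exact hd⟩
    · intro h7
      exact h2 (G.inv d) h7 (by rw [tgt_inv]; exact hd)
    · intro h7
      exact h3 (G.inv d) h7 (by rw [tgt_inv]; exact hd)
  have n1 := mN d1 hd1.1 hd1.2
  have n2 := mN d2 hd2.1 hd2.2
  obtain ⟨x, zx, dax, dbx, hx, hzx, hspx, hminx⟩ := h.min_a ⟨_, n1⟩
  obtain ⟨y, zy, day, dby, hy, hzy, hspy, hminy⟩ := h.min_b ⟨_, n1⟩
  obtain ⟨hxC, hxa, hxb, -⟩ := mem_N0.1 hx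
  obtain ⟨hyC, hya, hyb, -⟩ := mem_N0.1 hy
  have hxy : x ≠ y := by
    rintro rfl
    apply hne
    have all : ∀ d, G.src d ∈ Z → G.tgt d ∈ C → G.inv d = zx := by
      intro d hd hd'
      have h5 : G.tgt d = x := by
        rcases hspx.tri _ hd' with h5 | h5 | h5
        · exact h5
        · exact absurd h5 (hminx _ (mN d hd hd'))
        · exact absurd h5 (hminy _ (mN d hd hd'))
      rcases hspx.star (G.inv d) h5 with h6 | h6 | h6
      · exact h6
      · have := hspx.ta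
        rw [← h6, tgt_inv] at this
        exact absurd (comp_mem this).1 (h.not_C hd)
      · have := hspx.tb
        rw [← h6, tgt_inv] at this
        exact absurd (comp_mem this).1 (h.not_C hd)
    exact inv_inj ((all d1 hd1.1 hd1.2).trans (all d2 hd2.1 hd2.2).symm)
  have hyx : y ∈ G.comp A (C \ {x}) (G.tgt e) := by
    rcases hspx.tri y hyC with h5 | h5 | h5
    · exact absurd h5.symm hxy
    · exact absurd h5 (hminx y hy)
    · exact h5
  have hxy' : x ∈ G.comp A (C \ {y}) (G.src e) := by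
    rcases hspy.tri x hxC with h5 | h5 | h5
    · exact absurd h5 hxy
    · exact h5
    · exact absurd h5 (hminy x hx)
  set La := G.comp A (C \ {x}) (G.src e) with hLa
  set Lb := G.comp A (C \ {y}) (G.tgt e) with hLb
  have haLa : G.src e ∈ La := self_mem_comp h.aC hxa
  have hbLb : G.tgt e ∈ Lb := self_mem_comp h.bC hyb
  have hLaC : ∀ v ∈ La, v ∈ C ∧ v ≠ x := fun v hv => comp_mem hv
  have hLbC : ∀ v ∈ Lb, v ∈ C ∧ v ≠ y := fun v hv => comp_mem hv
  let M0 : Finset V := sel C fun v => v ≠ x ∧ v ≠ y ∧ v ∉ La ∧ v ∉ Lb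
  have hM : ∀ v, v ∈ M0 ↔ v ∈ C ∧ v ≠ x ∧ v ≠ y ∧ v ∉ La ∧ v ∉ Lb := fun v => mem_sel
  have hM0 : G.Conn A M0 := conn_mid h.clA h.conC hspx hspy hyx M0 hM
  have yLa : y ∉ La := hminx y hy
  have xLb : x ∉ Lb := hminy x hx
  -- `La` and `Lb` are disjoint
  have hLL : ∀ v ∈ La, v ∉ Lb := by
    have h5 := hspx.symm
    -- `La ⊆ comp at y of a`
    have hcon : G.Conn A La := conn_comp h.clA
    have hsub : La ⊆ C \ {y} := by
      intro v hv
      simp only [mem_sdiff, mem_singleton]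
      refine ⟨(hLaC v hv).1, ?_⟩
      rintro rfl
      exact yLa hv
    intro v hv hv'
    refine hspy.dis v ?_ hv'
    rw [mem_comp]
    exact (hcon.reach haLa hv).mono (Subset.refl _) hsub
  have conW : G.Conn A (La ∪ {x} ∪ Z ∪ {y} ∪ Lb) := by
    refine (((((conn_comp h.clA).union h.clA conn_singleton (d := G.inv dax)
      (h.clA _ (hspx.mA _ hspx.sa)) ?_ ?_).union h.clA h.conZ (d := zx) (hspx.mA _ hspx.sz) ?_
      hzx)).union h.clA conn_singleton (d := G.inv zy) (h.clA _ (hspy.mA _ hspy.sz)) ?_ ?_).union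
      h.clA (conn_comp h.clA) (d := dby) (hspy.mA _ hspy.sb) ?_ hspy.tb
    · rw [src_inv]; exact hspx.ta
    · rw [tgt_inv, mem_singleton]; exact hspx.sa
    · rw [hspx.sz]; simp
    · rw [src_inv]; exact mem_union_right _ hzy
    · rw [tgt_inv, mem_singleton]; exact hspy.sz
    · rw [hspy.sb]; simp
  have hP1 := h.P M0 (La ∪ {x} ∪ Z ∪ {y} ∪ Lb)
    (fun v hv => ((h.memC v).1 ((hM v).1 hv).1).1) hM0 (by
      intro v hv
      simp only [mem_union, mem_singleton] at hv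
      rw [hM]
      rcases hv with (((hv | rfl) | hv) | rfl) | hv
      · exact ⟨((h.memC _).1 (hLaC _ hv).1).1, fun h5 => h5.2.2.2.1 hv⟩
      · exact ⟨((h.memC _).1 hxC).1, fun h5 => h5.2.1 rfl⟩
      · exact ⟨h.not_B hv, fun h5 => h.not_C hv h5.1⟩
      · exact ⟨((h.memC _).1 hyC).1, fun h5 => h5.2.2.1 rfl⟩
      · exact ⟨((h.memC _).1 (hLbC _ hv).1).1, fun h5 => h5.2.2.2.2 hv⟩) conW
      (by simp only [mem_union, mem_singleton]; tauto)
      (mem_union_right _ hbLb)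
  let S : Finset V := Z ∪ {x} ∪ {y} ∪ M0
  have memS : ∀ v, v ∈ S ↔ v ∈ Z ∨ v = x ∨ v = y ∨ v ∈ M0 := by
    intro v
    simp only [S, mem_union, mem_singleton]
    tauto
  have hSC : ∀ v ∈ C, v ∉ S → v ∈ La ∨ v ∈ Lb := by
    intro v hv hvS
    rw [memS, hM] at hvS
    tauto
  have hLS : ∀ v, v ∈ La ∨ v ∈ Lb → v ∉ S := by
    intro v hv hvS
    rw [memS, hM] at hvS
    rcases hvS with h5 | h5 | h5 | h5
    · rcases hv with hv | hv
      · exact h.not_C h5 (hLaC v hv).1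
      · exact h.not_C h5 (hLbC v hv).1
    · subst h5
      rcases hv with hv | hv
      · exact (hLaC v hv).2 rfl
      · exact xLb hv
    · subst h5
      rcases hv with hv | hv
      · exact yLa hv
      · exact (hLbC v hv).2 rfl
    · tauto
  have hBS : ∀ v ∈ B, v ∉ S := by
    intro v hv hvS
    rw [memS] at hvS
    rcases hvS with h5 | h5 | h5 | h5
    · exact h.dis v hv h5
    · exact ((h.memC v).1 (h5 ▸ hxC)).1 hv
    · exact ((h.memC v).1 (h5 ▸ hyC)).1 hv
    · exact ((h.memC v).1 ((hM v).1 h5).1).1 hv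
  have cutS : ∀ d ∈ G.cut univ S, d = dax ∨ d = dby ∨ d ∈ G.ee Z B ∨ d ∈ G.ee M0 B := by
    intro d hd
    rw [mem_cut] at hd
    obtain ⟨-, hd1, hd2⟩ := hd
    have hdZ : G.tgt d ∉ Z := fun h5 => hd2 ((memS _).2 (Or.inl h5))
    rcases (memS _).1 hd1 with h5 | h5 | h5 | h5
    · by_cases h6 : G.tgt d ∈ B
      · exact Or.inr (Or.inr (Or.inl (mem_ee.2 ⟨h5, h6⟩)))
      · exfalso
        have h7 : G.tgt d ∈ C := (h.memC _).2 ⟨h6, hdZ⟩
        rcases hSC _ h7 hd2 with h8 | h8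
        · exact hminx _ (mN d h5 h7) h8
        · exact hminy _ (mN d h5 h7) h8
    · rcases hspx.star d h5 with h6 | h6 | h6
      · exact absurd (h6 ▸ hzx) hdZ
      · exact Or.inl h6
      · exfalso
        rw [h6] at hd2
        rcases hSC _ (comp_mem hspx.tb).1 hd2 with h8 | h8
        · exact hspx.dis _ h8 hspx.tb
        · have h9 : G.tgt dbx ∈ G.comp A (C \ {y}) (G.src e) := by
            refine comp_closed (hspx.mA _ hspx.sb) (by rw [hspx.sb]; exact hxy') ?_
            simp only [mem_sdiff, mem_singleton]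
            exact hLbC _ h8
          exact hspy.dis _ h9 h8
    · rcases hspy.star d h5 with h6 | h6 | h6
      · exact absurd (h6 ▸ hzy) hdZ
      · exfalso
        rw [h6] at hd2
        rcases hSC _ (comp_mem hspy.ta).1 hd2 with h8 | h8
        · have h9 : G.tgt day ∈ G.comp A (C \ {x}) (G.tgt e) := by
            refine comp_closed (hspy.mA _ hspy.sa) (by rw [hspy.sa]; exact hyx) ?_
            simp only [mem_sdiff, mem_singleton]
            exact hLaC _ h8
          exact hspx.dis _ h8 h9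
        · exact hspy.dis _ hspy.ta h8
      · exact Or.inr (Or.inl h6)
    · by_cases h6 : G.tgt d ∈ B
      · exact Or.inr (Or.inr (Or.inr (mem_ee.2 ⟨h5, h6⟩)))
      · exfalso
        have h7 : G.tgt d ∈ C := (h.memC _).2 ⟨h6, hdZ⟩
        have h8 : d ∈ A := h.mA (fun h9 => ((hM _).1 h5).2.2.2.1 (h9 ▸ haLa))
          (fun h9 => ((hM _).1 h5).2.2.2.2 (h9 ▸ hbLb))
        rcases mid_step hspx hspy M0 hM h8 h5 h7 with h9 | h9 | h9
        · exact hd2 ((memS _).2 (Or.inr (Or.inr (Or.inr h9))))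
        · exact hd2 ((memS _).2 (Or.inr (Or.inl h9)))
        · exact hd2 ((memS _).2 (Or.inr (Or.inr (Or.inl h9))))
  have hsub : G.cut univ S ⊆ {dax, dby} ∪ (G.ee Z B ∪ G.ee M0 B) := by
    intro d hd
    simp only [mem_union, mem_insert, mem_singleton]
    rcases cutS d hd with h5 | h5 | h5 | h5
    · exact Or.inl (Or.inl h5)
    · exact Or.inl (Or.inr h5)
    · exact Or.inr (Or.inl h5)
    · exact Or.inr (Or.inr h5)
  have hcard : (G.cut univ S).card ≤ 2 + ((G.ee Z B).card + (G.ee M0 B).card) :=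
    (card_le_card hsub).trans ((card_union_le _ _).trans
      (Nat.add_le_add card_le_two (card_union_le _ _)))
  obtain ⟨z0, hz0⟩ := h.hZ
  obtain ⟨b0, hb0⟩ := h.hB
  have hS3 : 3 ≤ S.card := by
    have hs : ({x, y, z0} : Finset V) ⊆ S := by
      intro v hv
      simp only [mem_insert, mem_singleton] at hv
      rw [memS]
      rcases hv with rfl | rfl | rfl
      · exact Or.inr (Or.inl rfl)
      · exact Or.inr (Or.inr (Or.inl rfl))
      · exact Or.inl hz0
    have hc : ({x, y, z0} : Finset V).card = 3 := by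
      rw [card_insert_of_notMem, card_pair]
      · rintro rfl; exact h.not_C hz0 hyC
      · simp only [mem_insert, mem_singleton, not_or]
        exact ⟨hxy, fun h5 => h.not_C hz0 (h5 ▸ hxC)⟩
    rw [← hc]
    exact card_le_card hs
  have hSc : 3 ≤ Sᶜ.card := by
    have hs : ({G.src e, G.tgt e, b0} : Finset V) ⊆ Sᶜ := by
      intro v hv
      simp only [mem_insert, mem_singleton] at hv
      rw [mem_compl]
      rcases hv with rfl | rfl | rfl
      · exact hLS _ (Or.inl haLa)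
      · exact hLS _ (Or.inr hbLb)
      · exact hBS _ hb0
    have hc : ({G.src e, G.tgt e, b0} : Finset V).card = 3 := by
      rw [card_insert_of_notMem, card_pair]
      · rintro rfl
        exact ((h.memC _).1 h.bC).1 hb0
      · simp only [mem_insert, mem_singleton, not_or]
        exact ⟨h.hab, fun h5 => ((h.memC _).1 h.aC).1 (h5 ▸ hb0)⟩
    rw [← hc]
    exact card_le_card hs
  have h4 := h.c4 S (by omega) (by omega)
  have hZB := h.ZB
  have h7 : (G.cut univ S).card = 4 := by omega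
  exact ⟨S, hLS _ (Or.inl haLa), hLS _ (Or.inr hbLb), h7, h.even_of_parity h7 hS3, hSc⟩

end Ctx

theorem t_ex2 : T_EX2 := by
  intro V D _ _ G hCub h3 h4 e hab B Z hB hZ hBZ haBZ hbBZ hconZ hconC hP hN
  set A : Finset D := univ \ {e, G.inv e} with hAdef
  have memA : ∀ d, d ∈ A ↔ d ≠ e ∧ d ≠ G.inv e := by
    intro d
    simp only [hAdef, mem_sdiff, mem_univ, true_and, mem_insert, mem_singleton, not_or]
  have clA : G.Cl A := cl_sdiff_pair cl_univ e
  have memC : ∀ v, v ∈ (B ∪ Z)ᶜ ↔ v ∉ B ∧ v ∉ Z := by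
    intro v
    simp only [mem_compl, mem_union, not_or]
  have dis : ∀ v ∈ B, v ∉ Z := fun v hv => disjoint_left.1 hBZ hv
  have aC : G.src e ∈ (B ∪ Z)ᶜ := by rw [mem_compl]; exact haBZ
  have bC : G.tgt e ∈ (B ∪ Z)ᶜ := by rw [mem_compl]; exact hbBZ
  have hctx : Ctx G A e B Z (B ∪ Z)ᶜ :=
    { cub := hCub
      c3 := h3
      c4 := h4
      clA := clA
      memA := memA
      hab := hab
      hB := hB
      hZ := hZ
      dis := dis
      memC := memC
      aC := aC
      bC := bC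
      conZ := by
        intro K hK hne hKZ
        obtain ⟨d, -, h5, h6, h7⟩ := hconZ K hK hne hKZ
        refine ⟨d, (memA d).2 ⟨?_, ?_⟩, h5, h6, h7⟩
        · rintro rfl
          exact ((memC _).1 aC).2 (hK h5)
        · rintro rfl
          exact ((memC _).1 bC).2 (hK h5)
      conC := hconC
      P := by
        intro Q W hQ hQc hW hWc ha hb
        refine hP Q ?_ (hQc.mono (subset_univ _)) ?_
        · rw [disjoint_left]; exact hQ
        · refine (hWc.reach ha hb).mono (Subset.refl _) ?_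
          intro v hv
          rw [mem_compl, mem_union, not_or]
          exact hW v hv
      N := hN }
  by_cases ha : ∃ za, G.src za = G.src e ∧ G.tgt za ∈ Z
  · obtain ⟨za, ha1, ha2⟩ := ha
    by_cases hb : ∃ zb, G.src zb = G.tgt e ∧ G.tgt zb ∈ Z
    · obtain ⟨zb, hb1, hb2⟩ := hb
      exact (hctx.caseC ha1 ha2 hb1 hb2).elim
    · push Not at hb
      obtain ⟨p, l, r, S, h5, h6, h7, h8, h9, h10⟩ := hctx.caseB ha1 ha2 hb
      refine Or.inr ⟨e, p, l, r, S, Or.inl rfl, h5, h6, h7, h8, h9, ?_⟩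
      intro Q hQ hQc hl hr
      refine h10 Q hQ ?_ hl hr
      have he := mem_cut.1 ((h6 e).2 (Or.inl rfl))
      intro K hK hne hKQ
      obtain ⟨d, -, h11, h12, h13⟩ := hQc K hK hne hKQ
      refine ⟨d, (memA d).2 ⟨?_, ?_⟩, h11, h12, h13⟩
      · rintro rfl
        exact he.2.2 (hQ h12)
      · rintro rfl
        exact he.2.2 (hQ (hK h11))
  · push Not at ha
    by_cases hb : ∃ zb, G.src zb = G.tgt e ∧ G.tgt zb ∈ Z
    · obtain ⟨zb, hb1, hb2⟩ := hb
      obtain ⟨p, l, r, S, h5, h6, h7, h8, h9, h10⟩ := hctx.swap.caseB (za := zb)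
        (by rw [src_inv]; exact hb1) hb2 (by rw [tgt_inv]; exact ha)
      refine Or.inr ⟨G.inv e, p, l, r, S, Or.inr rfl, h5, h6, h7, h8, h9, ?_⟩
      intro Q hQ hQc hl hr
      refine h10 Q hQ ?_ hl hr
      have he := mem_cut.1 ((h6 (G.inv e)).2 (Or.inl rfl))
      rw [tgt_inv] at he
      intro K hK hne hKQ
      obtain ⟨d, -, h11, h12, h13⟩ := hQc K hK hne hKQ
      refine ⟨d, (memA d).2 ⟨?_, ?_⟩, h11, h12, h13⟩
      · rintro rfl
        exact he.2.2 (hQ (hK h11))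
      · rintro rfl
        rw [tgt_inv] at h12
        exact he.2.2 (hQ h12)
    · push Not at hb
      exact Or.inl (hctx.caseA ha hb)

end Pool.Agent.H48.OC.EX2
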